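import Mathlib
import Pool.Agent.Lib.H42I.Defs

/-!
# MP_273810_co, robust part: reflections, virtual sources (library H32W, helper32)
-/

open Set Metric Filter Topology

namespace Pool.Agent.Lib.H32W

open Pool.Agent.Lib.H42I (Ray IsPolygon Illuminable)

/-- cross product of two vectors of the plane -/
def det (a b : ℂ) : ℝ := a.re * b.im - a.im * b.re


theorem refl_self (u x : ℂ) (hu : u ≠ 0) (h : det u x = 0) : H42I.refl u x = x := by
  unfold H42I.refl
  have hc : (starRingEnd ℂ) u ≠ 0 := by simpa using hu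
  rw [div_mul_eq_mul_div, div_eq_iff hc]
  unfold det at h
  apply Complex.ext
  · simp; ring
  · simp; linarith

theorem refl_sub (u x y : ℂ) : H42I.refl u (x - y) = H42I.refl u x - H42I.refl u y := by
  unfold H42I.refl; simp; ring

theorem refl_real (u x : ℂ) (c : ℝ) : H42I.refl u ((c : ℂ) * x) = (c : ℂ) * H42I.refl u x := by
  unfold H42I.refl; simp; ring

theorem det_sub (u x y : ℂ) : det u (x - y) = det u x - det u y := by
  unfold det; simp; ring

theorem det_add (u x y : ℂ) : det u (x + y) = det u x + det u y := by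
  unfold det; simp; ring

theorem det_real (u x : ℂ) (c : ℝ) : det u ((c : ℂ) * x) = c * det u x := by
  unfold det; simp; ring

/-- mirror image of `x` in the line through `a` and `b` -/
noncomputable def mirror (a b x : ℂ) : ℂ := a + H42I.refl (b - a) (x - a)

/-- parameter of the intersection of the line `a b` with the line from `V` to `w` -/
noncomputable def par (a b V w : ℂ) : ℝ := det (b - a) (a - V) / det (b - a) (w - V)

/-- intersection of the line `a b` with the line from `V` to `w` -/
noncomputable def hit (a b V w : ℂ) : ℂ := V + (par a b V w : ℂ) * (w - V)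

theorem refl_line (a b z V : ℂ) (hab : a ≠ b) (hz : det (b - a) (z - a) = 0) :
    H42I.refl (b - a) (z - V) = z - mirror a b V := by
  have h1 : z - V = (z - a) - (V - a) := by ring
  rw [h1, refl_sub, refl_self _ _ (sub_ne_zero.2 hab.symm) hz]
  unfold mirror
  ring

theorem hit_line (a b V w : ℂ) (h : det (b - a) (w - V) ≠ 0) : det (b - a) (hit a b V w - a) = 0 := by
  have h1 : hit a b V w - a = (par a b V w : ℂ) * (w - V) - (a - V) := by unfold hit; ring
  rw [h1, det_sub, det_real]
  unfold par
  field_simp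
  ring

theorem hit_base (a b z d V w : ℂ) (c t : ℝ) (hab : a ≠ b) (hz : det (b - a) (z - a) = 0) (hc : 0 < c)
    (ht : 0 < t) (hd : d = (c : ℂ) * (z - V)) (hw : w = z + (t : ℂ) * H42I.refl (b - a) d)
    (htr : det (b - a) (w - z) ≠ 0) :
    hit a b (mirror a b V) w = z ∧ 0 < par a b (mirror a b V) w ∧ par a b (mirror a b V) w < 1 ∧
    det (b - a) (w - mirror a b V) ≠ 0 := by
  set V' := mirror a b V with hV'
  have h1 : H42I.refl (b - a) d = (c : ℂ) * (z - V') := by
    rw [hd, refl_real, refl_line a b z V hab hz]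
  have h2 : w - V' = ((1 + t * c : ℝ) : ℂ) * (z - V') := by
    rw [hw, h1]; push_cast; ring
  have h3 : w - z = ((t * c : ℝ) : ℂ) * (z - V') := by
    rw [hw, h1]; push_cast; ring
  have htc : 0 < t * c := mul_pos ht hc
  have h4 : det (b - a) (z - V') ≠ 0 := by
    rw [h3, det_real] at htr
    exact right_ne_zero_of_mul htr
  have h5 : det (b - a) (w - V') = (1 + t * c) * det (b - a) (z - V') := by rw [h2, det_real]
  have h6 : det (b - a) (a - V') = det (b - a) (z - V') := by
    have : a - V' = (z - V') - (z - a) := by ring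
    rw [this, det_sub, hz, sub_zero]
  have h7 : par a b V' w = 1 / (1 + t * c) := by
    unfold par
    rw [h5, h6]
    have : (1 + t * c) ≠ 0 := by positivity
    field_simp
  refine ⟨?_, ?_, ?_, ?_⟩
  · unfold hit
    rw [h7, h2]
    have h8 : ((1 / (1 + t * c) : ℝ) : ℂ) * (((1 + t * c : ℝ) : ℂ) * (z - V')) = z - V' := by
      rw [← mul_assoc, ← Complex.ofReal_mul]
      have : 1 / (1 + t * c) * (1 + t * c) = 1 := by
        have : (1 + t * c) ≠ 0 := by positivity
        field_simp
      rw [this]; simp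
    rw [h8]; ring
  · rw [h7]; positivity
  · rw [h7, div_lt_one (by positivity)]; linarith
  · rw [h5]; exact mul_ne_zero (by positivity) h4

theorem ca_det {X : Type*} [TopologicalSpace X] {x₀ : X} {a b : X → ℂ} (ha : ContinuousAt a x₀)
    (hb : ContinuousAt b x₀) : ContinuousAt (fun x => det (a x) (b x)) x₀ := by
  unfold det
  exact ((Complex.continuous_re.continuousAt.comp ha).mul (Complex.continuous_im.continuousAt.comp hb)).sub
    ((Complex.continuous_im.continuousAt.comp ha).mul (Complex.continuous_re.continuousAt.comp hb))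

theorem ca_mirror {X : Type*} [TopologicalSpace X] {x₀ : X} {a b V : X → ℂ} (ha : ContinuousAt a x₀)
    (hb : ContinuousAt b x₀) (hV : ContinuousAt V x₀) (hab : a x₀ ≠ b x₀) :
    ContinuousAt (fun x => mirror (a x) (b x) (V x)) x₀ := by
  unfold mirror H42I.refl
  refine ha.add ?_
  refine ContinuousAt.mul (ContinuousAt.div (hb.sub ha) ?_ ?_) ?_
  · exact Complex.continuous_conj.continuousAt.comp (hb.sub ha)
  · intro h
    exact sub_ne_zero.2 hab.symm ((map_eq_zero (starRingEnd ℂ)).1 h)
  · exact Complex.continuous_conj.continuousAt.comp (hV.sub ha)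

theorem ca_par {X : Type*} [TopologicalSpace X] {x₀ : X} {a b V w : X → ℂ} (ha : ContinuousAt a x₀)
    (hb : ContinuousAt b x₀) (hV : ContinuousAt V x₀) (hw : ContinuousAt w x₀)
    (h : det (b x₀ - a x₀) (w x₀ - V x₀) ≠ 0) :
    ContinuousAt (fun x => par (a x) (b x) (V x) (w x)) x₀ := by
  unfold par
  exact ContinuousAt.div (ca_det (hb.sub ha) (ha.sub hV)) (ca_det (hb.sub ha) (hw.sub hV)) h

theorem ca_hit {X : Type*} [TopologicalSpace X] {x₀ : X} {a b V w : X → ℂ} (ha : ContinuousAt a x₀)
    (hb : ContinuousAt b x₀) (hV : ContinuousAt V x₀) (hw : ContinuousAt w x₀)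
    (h : det (b x₀ - a x₀) (w x₀ - V x₀) ≠ 0) :
    ContinuousAt (fun x => hit (a x) (b x) (V x) (w x)) x₀ := by
  unfold hit
  exact hV.add ((Complex.continuous_ofReal.continuousAt.comp (ca_par ha hb hV hw h)).mul (hw.sub hV))

/-- points on the line near a point of the open segment are in the open segment -/
theorem mem_openSegment_of_near (a b z : ℂ) (hab : a ≠ b) (hz : z ∈ openSegment ℝ a b) :
    ∀ᶠ p in 𝓝 ((a, b), z), det (p.1.2 - p.1.1) (p.2 - p.1.1) = 0 → p.2 ∈ openSegment ℝ p.1.1 p.1.2 := by
  have hc : ContinuousAt (fun p : (ℂ × ℂ) × ℂ => ((p.2 - p.1.1) / (p.1.2 - p.1.1)).re) ((a, b), z) := by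
    apply Complex.continuous_re.continuousAt.comp
    apply ContinuousAt.div
    · fun_prop
    · fun_prop
    · exact sub_ne_zero.2 hab.symm
  obtain ⟨s, t, hs, ht, hst, hzz⟩ := hz
  have hval : ((z - a) / (b - a)).re = t := by
    have : z - a = (t : ℂ) * (b - a) := by
      rw [← hzz]
      have : (s : ℂ) = 1 - t := by
        rw [← Complex.ofReal_one, ← hst]; push_cast; ring
      simp only [Complex.real_smul, this]
      ring
    rw [this, mul_div_assoc, div_self (sub_ne_zero.2 hab.symm), mul_one, Complex.ofReal_re]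
  have h0 := (continuousAt_const (y := (0 : ℝ))).eventually_lt hc (by simp only [hval]; exact ht)
  have h1 := hc.eventually_lt (continuousAt_const (y := (1 : ℝ))) (by simp only [hval]; linarith)
  have h2 : ∀ᶠ p in 𝓝 ((a, b), z), (p : (ℂ × ℂ) × ℂ).1.1 ≠ p.1.2 := by
    have : ContinuousAt (fun p : (ℂ × ℂ) × ℂ => p.1.1 - p.1.2) ((a, b), z) := by fun_prop
    have h3 := this.eventually_ne (sub_ne_zero.2 hab)
    filter_upwards [h3] with p hp
    exact sub_ne_zero.1 hp
  filter_upwards [h0, h1, h2] with p hp0 hp1 hp2 hdet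
  set τ := ((p.2 - p.1.1) / (p.1.2 - p.1.1)).re with hτ
  have hne : p.1.2 - p.1.1 ≠ 0 := sub_ne_zero.2 hp2.symm
  have him : ((p.2 - p.1.1) / (p.1.2 - p.1.1)).im = 0 := by
    rw [Complex.div_im]
    unfold det at hdet
    have hn : Complex.normSq (p.1.2 - p.1.1) ≠ 0 := by simpa using hne
    field_simp
    linarith
  have hreal : (p.2 - p.1.1) / (p.1.2 - p.1.1) = (τ : ℂ) := by
    apply Complex.ext
    · simp [hτ]
    · simp [him]
  have h5 : p.2 - p.1.1 = (τ : ℂ) * (p.1.2 - p.1.1) := by
    rw [← hreal, div_mul_cancel₀ _ hne]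
  refine ⟨1 - τ, τ, by linarith, hp0, by ring, ?_⟩
  have h6 : p.2 = p.1.1 + (τ : ℂ) * (p.1.2 - p.1.1) := by rw [← h5]; ring
  rw [h6]
  simp only [Complex.real_smul]
  push_cast
  ring

end Pool.Agent.Lib.H32W
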