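import Mathlib
import Pool.Agent.Lib.H32W.Alg

/-!
# MP_273810_co, robust part: a light ray with a good arrival persists (library H32W, helper32)
-/

open Set Metric Filter Topology

namespace Pool.Agent.Lib.H32W

open Pool.Agent.Lib.H42I (Ray IsPolygon Illuminable)

/-- Good arrival at `w` with the direction `d`: off the boundary, or in the relative interior of a side, or at a vertex,
with the last leg on the same side of the lines of both sides at this vertex. -/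
def GoodArr {n : ℕ} (v : ZMod n → ℂ) (w d : ℂ) : Prop :=
  (∀ i, w ∉ segment ℝ (v i) (v (i + 1))) ∨ (∃ i, w ∈ openSegment ℝ (v i) (v (i + 1))) ∨
  ∃ i, w = v i ∧ 0 < det (v i - v (i - 1)) d * det (v (i + 1) - v i) d

/-- The facts on the region of a polygon near `P₀` used in the robust part. -/
structure Facts {n : ℕ} (P₀ : Set ℂ) (v₀ : ZMod n → ℂ) : Prop where
  inside : ∀ p ∈ interior P₀, ∃ r > 0, ∀ᶠ v in 𝓝 v₀, ∀ P, IsPolygon P v → ball p r ⊆ interior P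
  outside : ∀ p, p ∉ P₀ → ∃ r > 0, ∀ᶠ v in 𝓝 v₀, ∀ P, IsPolygon P v → Disjoint (ball p r) P
  segEnd : ∀ z w : ℂ, z ≠ w → openSegment ℝ z w ⊆ interior P₀ → GoodArr v₀ w (w - z) →
    ∃ b : ℝ, b < 1 ∧ ∀ᶠ x in 𝓝 ((v₀, z), w), ∀ P, IsPolygon P x.1.1 → x.2 ∈ P →
      ∀ s ∈ Ico b (1 : ℝ), x.1.2 + (s : ℂ) * (x.2 - x.1.2) ∈ interior P

/-- R3a for one side -/
theorem near_off {n : ℕ} (v₀ : ZMod n → ℂ) (w : ℂ) (j : ZMod n)
    (hw : w ∉ segment ℝ (v₀ j) (v₀ (j + 1))) :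
    ∃ r > 0, ∀ᶠ v in 𝓝 v₀, Disjoint (ball w r) (segment ℝ (v j) (v (j + 1))) := by
  have key : ∀ᶠ y in 𝓝 (v₀, w), ∀ t ∈ Icc (0 : ℝ) 1,
      (y : (ZMod n → ℂ) × ℂ).1 j + (t : ℂ) * (y.1 (j + 1) - y.1 j) ≠ y.2 := by
    apply IsCompact.eventually_forall_of_forall_eventually isCompact_Icc
    intro t ht
    have hc : ContinuousAt (fun y : ((ZMod n → ℂ) × ℂ) × ℝ =>
        y.1.1 j + (y.2 : ℂ) * (y.1.1 (j + 1) - y.1.1 j) - y.1.2) ((v₀, w), t) := by
      apply Continuous.continuousAt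
      fun_prop
    have hne : v₀ j + (t : ℂ) * (v₀ (j + 1) - v₀ j) - w ≠ 0 := by
      intro h0
      apply hw
      refine ⟨1 - t, t, by linarith [ht.2], ht.1, by ring, ?_⟩
      simp only [Complex.real_smul]; push_cast
      linear_combination h0
    filter_upwards [hc.eventually_ne hne] with y hy heq
    exact hy (sub_eq_zero.2 heq)
  rw [nhds_prod_eq] at key
  obtain ⟨pa, hpa, pb, hpb, hab⟩ := Filter.eventually_prod_iff.1 key
  obtain ⟨r, hr, hball⟩ := Metric.eventually_nhds_iff_ball.1 hpb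
  refine ⟨r, hr, ?_⟩
  filter_upwards [hpa] with v hv
  rw [Set.disjoint_left]
  rintro x hx ⟨a, b, ha, hb, hab', rfl⟩
  have := hab hv (hball _ hx) b ⟨hb, by linarith⟩
  apply this
  have h1 : (a : ℂ) = 1 - b := by
    rw [← Complex.ofReal_one, ← hab']; push_cast; ring
  simp only [Complex.real_smul, h1]; ring




theorem polygon_bdd {n : ℕ} {P : Set ℂ} {v : ZMod n → ℂ} (h : IsPolygon P v) (R : ℝ)
    (hR : ∀ i, ‖v i‖ ≤ R) : P ⊆ closedBall 0 R := by
  intro y hy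
  obtain ⟨x, hx, hmax⟩ := h.compact.exists_isMaxOn ⟨y, hy⟩ (continuous_norm.continuousOn (s := P))
  have hfr : frontier P ⊆ closedBall 0 R := by
    rw [h.frontier_eq]
    apply iUnion_subset
    intro i
    apply (convex_closedBall (0 : ℂ) R).segment_subset
    · simpa using hR i
    · simpa using hR (i + 1)
  have hxR : ‖x‖ ≤ R := by
    by_contra hcon
    rw [not_le] at hcon
    have hxi : x ∈ interior P := by
      by_contra hni
      have : x ∈ frontier P := ⟨subset_closure hx, hni⟩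
      have := hfr this
      rw [mem_closedBall, dist_zero_right] at this
      linarith
    have hev : ∀ᶠ t : ℝ in 𝓝 0, x + (t : ℂ) * x ∈ P := by
      have hc : Tendsto (fun t : ℝ => x + (t : ℂ) * x) (𝓝 0) (𝓝 x) := by
        apply Continuous.tendsto'
        · fun_prop
        · simp
      exact hc.eventually (mem_interior_iff_mem_nhds.1 hxi)
    have h1 := hev.filter_mono (nhdsWithin_le_nhds (s := Ioi (0 : ℝ)))
    obtain ⟨t, ht1, ht2⟩ := (h1.and self_mem_nhdsWithin).exists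
    have ht0 : (0 : ℝ) < t := ht2
    have h2 := hmax ht1
    have h3 : ‖x + (t : ℂ) * x‖ = (1 + t) * ‖x‖ := by
      have : x + (t : ℂ) * x = ((1 + t : ℝ) : ℂ) * x := by push_cast; ring
      rw [this, norm_mul, Complex.norm_real, Real.norm_of_nonneg (by linarith)]
    simp only [Set.mem_ofPred_eq] at h2
    rw [h3] at h2
    have hR0 : 0 ≤ R := (norm_nonneg _).trans (hR 0)
    nlinarith
  rw [mem_closedBall, dist_zero_right]
  exact (hmax hy).trans hxR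

theorem subset_stable {n : ℕ} (P₀ : Set ℂ) (v₀ : ZMod n → ℂ) (h₀ : IsPolygon P₀ v₀) (hF : Facts P₀ v₀) (U : Set ℂ)
    (hU : IsOpen U) (hPU : P₀ ⊆ U) :
    ∀ᶠ v in 𝓝 v₀, ∀ P, IsPolygon P v → P ⊆ U := by
  have : NeZero n := ⟨by have := h₀.three_le; omega⟩
  obtain ⟨R, hR⟩ : ∃ R : ℝ, ∀ i, ‖v₀ i‖ < R := by
    obtain ⟨R, hR⟩ := (Set.finite_range (fun i => ‖v₀ i‖)).bddAbove
    exact ⟨R + 1, fun i => lt_of_le_of_lt (hR ⟨i, rfl⟩) (by linarith)⟩
  have h1 : ∀ᶠ v in 𝓝 v₀, ∀ i, ‖v i‖ ≤ R := by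
    rw [Filter.eventually_all]
    intro i
    have hc : ContinuousAt (fun v : ZMod n → ℂ => ‖v i‖) v₀ := by
      apply Continuous.continuousAt; fun_prop
    filter_upwards [hc.eventually_lt continuousAt_const (hR i)] with v hv
    exact hv.le
  have h2 : ∀ᶠ v in 𝓝 v₀, ∀ p ∈ closedBall (0 : ℂ) R \ U, ∀ P, IsPolygon P v → p ∉ P := by
    apply IsCompact.eventually_forall_of_forall_eventually ((isCompact_closedBall _ _).diff hU)
    intro p hp
    obtain ⟨r, hr, hev⟩ := hF.outside p (fun h => hp.2 (hPU h))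
    rw [nhds_prod_eq]
    apply Filter.eventually_prod_iff.2
    refine ⟨_, hev, _, ball_mem_nhds p hr, ?_⟩
    intro v hv y hy P hP hyP
    exact Set.disjoint_left.1 (hv P hP) hy hyP
  filter_upwards [h1, h2] with v hv1 hv2 P hP y hy
  by_contra hyU
  exact hv2 y ⟨polygon_bdd hP R hv1 hy, hyU⟩ P hP hy

theorem conn_interior (P S : Set ℂ) (hS : IsPreconnected S) (h1 : Disjoint S (frontier P))
    (h2 : (S ∩ interior P).Nonempty) : S ⊆ interior P := by
  have hsub : S ⊆ interior P ∪ (closure P)ᶜ := by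
    intro x hx
    by_cases hc : x ∈ closure P
    · left
      by_contra hi
      exact (Set.disjoint_left.1 h1 hx) ⟨hc, hi⟩
    · right; exact hc
  have hd : Disjoint (interior P) (closure P)ᶜ := by
    rw [Set.disjoint_left]
    intro x hx hx'
    exact hx' (interior_subset_closure hx)
  exact hS.subset_left_of_subset_union isOpen_interior isClosed_closure.isOpen_compl hd hsub h2

theorem frontier_subset' {n : ℕ} {P : Set ℂ} {v : ZMod n → ℂ} (h : IsPolygon P v) (i : ZMod n) :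
    segment ℝ (v i) (v (i + 1)) ⊆ frontier P := by
  rw [h.frontier_eq]
  exact subset_iUnion (fun i => segment ℝ (v i) (v (i + 1))) i

theorem mem_openSeg (z w : ℂ) (s : ℝ) (h0 : 0 < s) (h1 : s < 1) :
    z + (s : ℂ) * (w - z) ∈ openSegment ℝ z w := by
  refine ⟨1 - s, s, by linarith, h0, by ring, ?_⟩
  simp only [Complex.real_smul]; push_cast; ring

theorem openSeg_cases (z w x : ℂ) (hx : x ∈ openSegment ℝ z w) :
    ∃ s : ℝ, 0 < s ∧ s < 1 ∧ x = z + (s : ℂ) * (w - z) := by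
  obtain ⟨a, b, ha, hb, hab, rfl⟩ := hx
  refine ⟨b, hb, by linarith, ?_⟩
  have : (a : ℂ) = 1 - b := by
    rw [← Complex.ofReal_one, ← hab]; push_cast; ring
  simp only [Complex.real_smul, this]; ring

/-- a compact part of a segment in the interior stays in the interior -/
theorem seg_cpt {n : ℕ} (P₀ : Set ℂ) (v₀ : ZMod n → ℂ) (h₀ : IsPolygon P₀ v₀) (hF : Facts P₀ v₀) (z w : ℂ)
    (a b : ℝ) (h : ∀ s ∈ Icc a b, z + (s : ℂ) * (w - z) ∈ interior P₀) :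
    ∀ᶠ x in 𝓝 ((v₀, z), w), ∀ P, IsPolygon P x.1.1 →
      ∀ s ∈ Icc a b, x.1.2 + (s : ℂ) * (x.2 - x.1.2) ∈ interior P := by
  have key : ∀ᶠ x in 𝓝 ((v₀, z), w), ∀ s ∈ Icc a b, ∀ P, IsPolygon P (x : ((ZMod n → ℂ) × ℂ) × ℂ).1.1 →
      x.1.2 + (s : ℂ) * (x.2 - x.1.2) ∈ interior P := by
    apply IsCompact.eventually_forall_of_forall_eventually isCompact_Icc
    intro s hs
    obtain ⟨r, hr, hev⟩ := hF.inside _ (h s hs)
    have hv : Tendsto (fun y : (((ZMod n → ℂ) × ℂ) × ℂ) × ℝ => y.1.1.1) (𝓝 (((v₀, z), w), s)) (𝓝 v₀) := by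
      apply Continuous.tendsto'
      · fun_prop
      · rfl
    have hp : Tendsto (fun y : (((ZMod n → ℂ) × ℂ) × ℂ) × ℝ => y.1.1.2 + (y.2 : ℂ) * (y.1.2 - y.1.1.2))
        (𝓝 (((v₀, z), w), s)) (𝓝 (z + (s : ℂ) * (w - z))) := by
      apply Continuous.tendsto'
      · fun_prop
      · rfl
    filter_upwards [hv.eventually hev, hp.eventually (ball_mem_nhds _ hr)] with y hy1 hy2 P hP
    exact hy1 P hP hy2
  filter_upwards [key] with x hx P hP s hs
  exact hx s hs P hP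

/-- transversality -/
theorem transversal {n : ℕ} (P₀ : Set ℂ) (v₀ : ZMod n → ℂ) (h₀ : IsPolygon P₀ v₀) (z w : ℂ) (i : ZMod n)
    (hz : z ∈ openSegment ℝ (v₀ i) (v₀ (i + 1))) (hne : v₀ i ≠ v₀ (i + 1))
    (h : openSegment ℝ z w ⊆ interior P₀) :
    det (v₀ (i + 1) - v₀ i) (w - z) ≠ 0 := by
  intro hdet
  have hon : det (v₀ (i + 1) - v₀ i) (z - v₀ i) = 0 := by
    obtain ⟨s, _, _, hs⟩ := openSeg_cases _ _ _ hz
    rw [hs]
    have : v₀ i + (s : ℂ) * (v₀ (i + 1) - v₀ i) - v₀ i = (s : ℂ) * (v₀ (i + 1) - v₀ i) := by ring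
    rw [this, det_real]
    unfold det; ring
  have hev := mem_openSegment_of_near _ _ _ hne hz
  have hcont : Tendsto (fun s : ℝ => ((v₀ i, v₀ (i + 1)), z + (s : ℂ) * (w - z))) (𝓝 0)
      (𝓝 ((v₀ i, v₀ (i + 1)), z)) := by
    apply Continuous.tendsto'
    · fun_prop
    · simp
  have h1 := (hcont.eventually hev).filter_mono (nhdsWithin_le_nhds (s := Ioi (0 : ℝ)))
  have h2 : ∀ᶠ s in 𝓝[>] (0 : ℝ), s < 1 := (gt_mem_nhds (by norm_num : (0:ℝ) < 1)).filter_mono nhdsWithin_le_nhds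
  obtain ⟨s, hs1, hs2, hs3⟩ := (h1.and (h2.and self_mem_nhdsWithin)).exists
  have hs0 : (0 : ℝ) < s := hs3
  have hmem : z + (s : ℂ) * (w - z) ∈ openSegment ℝ (v₀ i) (v₀ (i + 1)) := by
    apply hs1
    show det (v₀ (i + 1) - v₀ i) (z + (s : ℂ) * (w - z) - v₀ i) = 0
    have : z + (s : ℂ) * (w - z) - v₀ i = (z - v₀ i) + (s : ℂ) * (w - z) := by ring
    rw [this, det_add, hon, det_real, hdet]; ring
  have hf := frontier_subset' h₀ i (openSegment_subset_segment _ _ _ hmem)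
  exact hf.2 (h (mem_openSeg z w s hs0 hs2))


theorem near_off' {n : ℕ} (v₀ : ZMod n → ℂ) (w : ℂ) (j : ZMod n)
    (hw : w ∉ segment ℝ (v₀ j) (v₀ (j + 1))) :
    ∀ᶠ r in 𝓝[>] (0 : ℝ), ∀ᶠ v in 𝓝 v₀, Disjoint (ball w r) (segment ℝ (v j) (v (j + 1))) := by
  obtain ⟨r, hr, h⟩ := near_off v₀ w j hw
  have h2 : ∀ᶠ s in 𝓝[>] (0 : ℝ), s < r := (gt_mem_nhds hr).filter_mono nhdsWithin_le_nhds
  filter_upwards [h2] with s hs
  filter_upwards [h] with v hv
  exact hv.mono_left (ball_subset_ball hs.le)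

/-- a point of the relative interior of a side is on no other side -/
theorem not_mem_other {n : ℕ} {P : Set ℂ} {v : ZMod n → ℂ} (h : IsPolygon P v) (i j : ZMod n) (hij : j ≠ i)
    (z : ℂ) (hz : z ∈ openSegment ℝ (v i) (v (i + 1))) (hne : v i ≠ v (i + 1)) :
    z ∉ segment ℝ (v j) (v (j + 1)) := by
  intro hzj
  have := h.simple i j hij.symm ⟨openSegment_subset_segment _ _ _ hz, hzj⟩
  obtain ⟨s, hs0, hs1, hs⟩ := openSeg_cases _ _ _ hz
  have hd : v (i + 1) - v i ≠ 0 := sub_ne_zero.2 hne.symm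
  rcases this.1 with h1 | h1
  · rw [hs] at h1
    have : (s : ℂ) * (v (i + 1) - v i) = 0 := by linear_combination h1
    rcases mul_eq_zero.1 this with h2 | h2
    · exact hs0.ne' (by exact_mod_cast h2)
    · exact hd h2
  · have h1' : z = v (i + 1) := h1
    rw [hs] at h1'
    have : ((1 - s : ℝ) : ℂ) * (v (i + 1) - v i) = 0 := by push_cast; linear_combination -h1'
    rcases mul_eq_zero.1 this with h2 | h2
    · have : (1 - s : ℝ) = 0 := by exact_mod_cast h2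
      linarith
    · exact hd h2

theorem ne_succ {n : ℕ} {P : Set ℂ} {v : ZMod n → ℂ} (h : IsPolygon P v) (i : ZMod n) : v i ≠ v (i + 1) := by
  intro heq
  have h1 := h.inj heq
  have h3 := h.three_le
  have : Fact (1 < n) := ⟨by omega⟩
  have : (1 : ZMod n) = 0 := by
    have := congrArg (fun x => x - i) h1
    simpa using this.symm
  exact one_ne_zero this

theorem det_segment {a b x : ℂ} (hx : x ∈ segment ℝ a b) : det (b - a) (x - a) = 0 := by
  obtain ⟨s, t, _, _, hst, rfl⟩ := hx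
  have h1 : (s : ℂ) = 1 - t := by
    rw [← Complex.ofReal_one, ← hst]; push_cast; ring
  have : s • a + t • b - a = (t : ℂ) * (b - a) := by
    simp only [Complex.real_smul, h1]; ring
  rw [this, det_real]
  unfold det; ring

theorem seg_start {n : ℕ} (P₀ : Set ℂ) (v₀ : ZMod n → ℂ) (h₀ : IsPolygon P₀ v₀) (hF : Facts P₀ v₀) (z w : ℂ) (i : ZMod n)
    (hz : z ∈ openSegment ℝ (v₀ i) (v₀ (i + 1)))
    (h : openSegment ℝ z w ⊆ interior P₀) :
    ∃ a : ℝ, 0 < a ∧ ∀ᶠ x in 𝓝 ((v₀, z), w), ∀ P, IsPolygon P x.1.1 →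
      x.1.2 ∈ openSegment ℝ (x.1.1 i) (x.1.1 (i + 1)) →
      ∀ s ∈ Ioc (0 : ℝ) a, x.1.2 + (s : ℂ) * (x.2 - x.1.2) ∈ interior P := by
  have : NeZero n := ⟨by have := h₀.three_le; omega⟩
  have hne := ne_succ h₀ i
  have htr := transversal P₀ v₀ h₀ z w i hz hne h
  have hall : ∀ᶠ r in 𝓝[>] (0 : ℝ), ∀ j, ∀ᶠ v in 𝓝 v₀, j ≠ i →
      Disjoint (ball z r) (segment ℝ (v j) (v (j + 1))) := by
    rw [Filter.eventually_all]
    intro j
    by_cases hj : j = i
    · subst hj; simp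
    · filter_upwards [near_off' v₀ z j (not_mem_other h₀ i j hj z hz hne)] with r hr
      filter_upwards [hr] with v hv _
      exact hv
  obtain ⟨r, hr1, hr0⟩ := (hall.and self_mem_nhdsWithin).exists
  have hr0' : (0 : ℝ) < r := hr0
  have hv : ∀ᶠ v in 𝓝 v₀, ∀ j, j ≠ i → Disjoint (ball z r) (segment ℝ (v j) (v (j + 1))) := by
    rw [Filter.eventually_all]; exact hr1
  -- choose a
  obtain ⟨a, ha0, ha1, har⟩ : ∃ a : ℝ, 0 < a ∧ a < 1 ∧ a * (‖w - z‖ + 1) < r / 2 := by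
    refine ⟨min (1/2) (r / (4 * (‖w - z‖ + 1))), ?_, ?_, ?_⟩
    · have : 0 < ‖w - z‖ + 1 := by positivity
      positivity
    · exact lt_of_le_of_lt (min_le_left _ _) (by norm_num)
    · have h1 : 0 < ‖w - z‖ + 1 := by positivity
      calc min (1/2) (r / (4 * (‖w - z‖ + 1))) * (‖w - z‖ + 1)
          ≤ r / (4 * (‖w - z‖ + 1)) * (‖w - z‖ + 1) := by
            apply mul_le_mul_of_nonneg_right (min_le_right _ _) h1.le
        _ = r / 4 := by field_simp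
        _ < r / 2 := by linarith
  refine ⟨a, ha0, ?_⟩
  have hmid := seg_cpt P₀ v₀ h₀ hF z w a a (by
    intro s hs
    have : s = a := le_antisymm hs.2 hs.1
    rw [this]
    exact h (mem_openSeg z w a ha0 ha1))
  have c1 : Tendsto (fun x : ((ZMod n → ℂ) × ℂ) × ℂ => x.1.1) (𝓝 ((v₀, z), w)) (𝓝 v₀) := by
    apply Continuous.tendsto'
    · fun_prop
    · rfl
  have c2 : Tendsto (fun x : ((ZMod n → ℂ) × ℂ) × ℂ => x.1.2) (𝓝 ((v₀, z), w)) (𝓝 z) := by
    apply Continuous.tendsto'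
    · fun_prop
    · rfl
  have c3 : ∀ᶠ x in 𝓝 ((v₀, z), w), ‖(x : ((ZMod n → ℂ) × ℂ) × ℂ).2 - x.1.2‖ < ‖w - z‖ + 1 := by
    have : ContinuousAt (fun x : ((ZMod n → ℂ) × ℂ) × ℂ => ‖x.2 - x.1.2‖) ((v₀, z), w) := by
      apply Continuous.continuousAt; fun_prop
    exact this.eventually_lt continuousAt_const (by simp)
  have c4 : ∀ᶠ x in 𝓝 ((v₀, z), w),
      det ((x : ((ZMod n → ℂ) × ℂ) × ℂ).1.1 (i + 1) - x.1.1 i) (x.2 - x.1.2) ≠ 0 := by
    have : ContinuousAt (fun x : ((ZMod n → ℂ) × ℂ) × ℂ => det (x.1.1 (i + 1) - x.1.1 i) (x.2 - x.1.2))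
        ((v₀, z), w) := by
      apply Continuous.continuousAt
      unfold det
      fun_prop
    exact this.eventually_ne htr
  filter_upwards [hmid, c1.eventually hv, c2.eventually (ball_mem_nhds z (by positivity : 0 < r / 2)), c3, c4]
    with x h1 h2 h3 h4 h5 P hP hzz s hs
  have hS : IsPreconnected ((fun s : ℝ => x.1.2 + (s : ℂ) * (x.2 - x.1.2)) '' Ioc (0 : ℝ) a) := by
    apply isPreconnected_Ioc.image
    apply Continuous.continuousOn
    fun_prop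
  have hsub := conn_interior P _ hS ?_ ?_
  · exact hsub ⟨s, hs, rfl⟩
  · rw [Set.disjoint_left]
    rintro p ⟨σ, hσ, rfl⟩ hp
    rw [hP.frontier_eq] at hp
    obtain ⟨j, hj⟩ := mem_iUnion.1 hp
    by_cases hji : j = i
    · subst hji
      have e1 := det_segment hj
      have e2 := det_segment (openSegment_subset_segment _ _ _ hzz)
      have e3 : x.1.2 + (σ : ℂ) * (x.2 - x.1.2) - x.1.1 j
          = (x.1.2 - x.1.1 j) + (σ : ℂ) * (x.2 - x.1.2) := by ring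
      simp only at e1
      rw [e3, det_add, e2, det_real, zero_add] at e1
      rcases mul_eq_zero.1 e1 with e4 | e4
      · exact hσ.1.ne' e4
      · exact h5 e4
    · have := h2 j hji
      apply Set.disjoint_left.1 this _ hj
      rw [mem_ball, dist_eq_norm]
      rw [dist_eq_norm] at h3
      have e1 : x.1.2 + (σ : ℂ) * (x.2 - x.1.2) - z = (x.1.2 - z) + (σ : ℂ) * (x.2 - x.1.2) := by ring
      simp only
      rw [e1]
      calc ‖(x.1.2 - z) + (σ : ℂ) * (x.2 - x.1.2)‖ ≤ ‖x.1.2 - z‖ + ‖(σ : ℂ) * (x.2 - x.1.2)‖ := norm_add_le _ _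
        _ = ‖x.1.2 - z‖ + σ * ‖x.2 - x.1.2‖ := by
            rw [norm_mul, Complex.norm_real, Real.norm_of_nonneg hσ.1.le]
        _ ≤ ‖x.1.2 - z‖ + a * (‖w - z‖ + 1) := by
            have := mul_le_mul hσ.2 h4.le (norm_nonneg _) ha0.le
            linarith
        _ < r / 2 + r / 2 := by linarith
        _ = r := by ring
  · exact ⟨_, ⟨a, ⟨ha0, le_refl _⟩, rfl⟩, h1 P hP a ⟨le_refl _, le_refl _⟩⟩

theorem seg_side {n : ℕ} (P₀ : Set ℂ) (v₀ : ZMod n → ℂ) (h₀ : IsPolygon P₀ v₀) (hF : Facts P₀ v₀) (z w : ℂ) (i : ZMod n)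
    (hz : z ∈ openSegment ℝ (v₀ i) (v₀ (i + 1))) (hzw : z ≠ w)
    (h : openSegment ℝ z w ⊆ interior P₀) (hg : GoodArr v₀ w (w - z)) :
    ∀ᶠ x in 𝓝 ((v₀, z), w), ∀ P, IsPolygon P x.1.1 →
      x.1.2 ∈ openSegment ℝ (x.1.1 i) (x.1.1 (i + 1)) → x.2 ∈ P →
      openSegment ℝ x.1.2 x.2 ⊆ interior P := by
  obtain ⟨a, ha, hs⟩ := seg_start P₀ v₀ h₀ hF z w i hz h
  obtain ⟨b, hb, he⟩ := hF.segEnd z w hzw h hg
  have hm := seg_cpt P₀ v₀ h₀ hF z w (min a (1/2)) (max b (1/2)) (by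
    intro s hs
    apply h
    apply mem_openSeg
    · exact lt_of_lt_of_le (lt_min ha (by norm_num)) hs.1
    · exact lt_of_le_of_lt hs.2 (max_lt hb (by norm_num)))
  filter_upwards [hs, he, hm] with x h1 h2 h3 P hP hzz hw p hp
  obtain ⟨s, hs0, hs1, rfl⟩ := openSeg_cases _ _ _ hp
  rcases le_or_gt s a with hsa | hsa
  · exact h1 P hP hzz s ⟨hs0, hsa⟩
  · rcases le_or_gt b s with hsb | hsb
    · exact h2 P hP hw s ⟨hsb, hs1⟩
    · exact h3 P hP s ⟨(min_le_left _ _).trans hsa.le, hsb.le.trans (le_max_left _ _)⟩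

theorem seg_source {n : ℕ} (P₀ : Set ℂ) (v₀ : ZMod n → ℂ) (h₀ : IsPolygon P₀ v₀) (hF : Facts P₀ v₀) (z w : ℂ)
    (hz : z ∈ interior P₀) (hzw : z ≠ w)
    (h : openSegment ℝ z w ⊆ interior P₀) (hg : GoodArr v₀ w (w - z)) :
    ∀ᶠ x in 𝓝 ((v₀, z), w), ∀ P, IsPolygon P x.1.1 → x.2 ∈ P →
      openSegment ℝ x.1.2 x.2 ⊆ interior P := by
  obtain ⟨b, hb, he⟩ := hF.segEnd z w hzw h hg
  have hm := seg_cpt P₀ v₀ h₀ hF z w 0 (max b (1/2)) (by
    intro s hs
    rcases eq_or_lt_of_le hs.1 with h0 | h0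
    · rw [← h0]; simpa using hz
    · apply h
      apply mem_openSeg _ _ _ h0
      exact lt_of_le_of_lt hs.2 (max_lt hb (by norm_num)))
  filter_upwards [he, hm] with x h2 h3 P hP hw p hp
  obtain ⟨s, hs0, hs1, rfl⟩ := openSeg_cases _ _ _ hp
  rcases le_or_gt b s with hsb | hsb
  · exact h2 P hP hw s ⟨hsb, hs1⟩
  · exact h3 P hP s ⟨hs0.le, hsb.le.trans (le_max_left _ _)⟩


def LitS {n : ℕ} (v₀ : ZMod n → ℂ) (q₀ z d : ℂ) : Prop :=
  ∃ (V : (ZMod n → ℂ) × ℂ → ℂ) (c : ℝ), 0 < c ∧ ContinuousAt V (v₀, q₀) ∧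
    d = (c : ℂ) * (z - V (v₀, q₀)) ∧
    (GoodArr v₀ z d → ∀ᶠ x in 𝓝 ((v₀, q₀), z), ∀ P, IsPolygon P x.1.1 → x.2 ∈ P →
      ∃ c' : ℝ, 0 < c' ∧ Ray P x.1.1 x.1.2 x.2 ((c' : ℂ) * (x.2 - V x.1)))

theorem lit_start {n : ℕ} (P₀ : Set ℂ) (v₀ : ZMod n → ℂ) (h₀ : IsPolygon P₀ v₀) (hF : Facts P₀ v₀) (q₀ z : ℂ)
    (hq : q₀ ∈ interior P₀) (hz : z ≠ q₀) (h : openSegment ℝ q₀ z ⊆ interior P₀) :
    LitS v₀ q₀ z (z - q₀) := by
  refine ⟨Prod.snd, 1, one_pos, continuousAt_snd, by simp, ?_⟩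
  intro hg
  have h1 := seg_source P₀ v₀ h₀ hF q₀ z hq hz.symm h hg
  have h2 : ∀ᶠ x in 𝓝 ((v₀, q₀), z), (x : ((ZMod n → ℂ) × ℂ) × ℂ).2 ≠ x.1.2 := by
    have hc : ContinuousAt (fun x : ((ZMod n → ℂ) × ℂ) × ℂ => x.2 - x.1.2) ((v₀, q₀), z) := by
      apply Continuous.continuousAt; fun_prop
    filter_upwards [hc.eventually_ne (sub_ne_zero.2 hz)] with x hx
    exact sub_ne_zero.1 hx
  filter_upwards [h1, h2] with x h1 h2 P hP hx
  refine ⟨1, one_pos, ?_⟩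
  have := Ray.start (P := P) (v := x.1.1) x.2 h2 (h1 P hP hx)
  simpa using this

theorem good_real {n : ℕ} (v : ZMod n → ℂ) (w d : ℂ) (t : ℝ) (ht : 0 < t) (h : GoodArr v w d) :
    GoodArr v w ((t : ℂ) * d) := by
  rcases h with h | h | ⟨i, h1, h2⟩
  · exact Or.inl h
  · exact Or.inr (Or.inl h)
  · refine Or.inr (Or.inr ⟨i, h1, ?_⟩)
    rw [det_real, det_real]
    have : t * det (v i - v (i - 1)) d * (t * det (v (i + 1) - v i) d)
        = (t * t) * (det (v i - v (i - 1)) d * det (v (i + 1) - v i) d) := by ring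
    rw [this]
    positivity

theorem frontier_mem {n : ℕ} {P : Set ℂ} {v : ZMod n → ℂ} (h : IsPolygon P v) (i : ZMod n) {z : ℂ}
    (hz : z ∈ openSegment ℝ (v i) (v (i + 1))) : z ∈ P :=
  h.compact.isClosed.frontier_subset (frontier_subset' h i (openSegment_subset_segment _ _ _ hz))

theorem lit_bounce {n : ℕ} (P₀ : Set ℂ) (v₀ : ZMod n → ℂ) (h₀ : IsPolygon P₀ v₀) (hF : Facts P₀ v₀) (q₀ z d w : ℂ)
    (i : ZMod n) (t : ℝ) (hd : LitS v₀ q₀ z d)
    (hz : z ∈ openSegment ℝ (v₀ i) (v₀ (i + 1))) (ht : 0 < t)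
    (hw : w = z + (t : ℂ) * H42I.refl (v₀ (i + 1) - v₀ i) d)
    (h : openSegment ℝ z w ⊆ interior P₀) :
    LitS v₀ q₀ w (H42I.refl (v₀ (i + 1) - v₀ i) d) := by
  obtain ⟨V, c, hc, hV, hdV, hst⟩ := hd
  have hne := ne_succ h₀ i
  have htr := transversal P₀ v₀ h₀ z w i hz hne h
  have hzl : det (v₀ (i + 1) - v₀ i) (z - v₀ i) = 0 := det_segment (openSegment_subset_segment _ _ _ hz)
  obtain ⟨hb1, hb2, hb3, hb4⟩ := hit_base (v₀ i) (v₀ (i + 1)) z d (V (v₀, q₀)) w c t hne hzl hc ht hdV hw htr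
  have hzw : z ≠ w := by
    intro h0
    rw [h0] at htr
    apply htr
    rw [sub_self]
    unfold det; simp
  let V' : (ZMod n → ℂ) × ℂ → ℂ := fun y => mirror (y.1 i) (y.1 (i + 1)) (V y)
  have hV' : ContinuousAt V' (v₀, q₀) := by
    apply ca_mirror (a := fun y : (ZMod n → ℂ) × ℂ => y.1 i) (b := fun y => y.1 (i + 1)) _ _ hV hne
    · apply Continuous.continuousAt; fun_prop
    · apply Continuous.continuousAt; fun_prop
  have hV0 : V' (v₀, q₀) = mirror (v₀ i) (v₀ (i + 1)) (V (v₀, q₀)) := rfl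
  have hdir : H42I.refl (v₀ (i + 1) - v₀ i) d = (c : ℂ) * (z - V' (v₀, q₀)) := by
    rw [hdV, refl_real, refl_line (v₀ i) (v₀ (i + 1)) z _ hne hzl]
  have hwV : w - V' (v₀, q₀) = ((1 + t * c : ℝ) : ℂ) * (z - V' (v₀, q₀)) := by
    rw [hw, hdir]; push_cast; ring
  refine ⟨V', c / (1 + t * c), by positivity, hV', ?_, ?_⟩
  · rw [hwV, hdir, ← mul_assoc, ← Complex.ofReal_mul]
    congr 2
    have : (1 + t * c) ≠ 0 := by positivity
    field_simp
  · intro hg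
    have hg' : GoodArr v₀ w (w - z) := by
      have : w - z = (t : ℂ) * H42I.refl (v₀ (i + 1) - v₀ i) d := by rw [hw]; ring
      rw [this]
      exact good_real v₀ w _ t ht hg
    have hz' := hst (Or.inr (Or.inl ⟨i, hz⟩))
    have hseg := seg_side P₀ v₀ h₀ hF z w i hz hzw h hg'
    have hopen := mem_openSegment_of_near (v₀ i) (v₀ (i + 1)) z hne hz
    have hb4' : det (v₀ (i + 1) - v₀ i) (w - V' (v₀, q₀)) ≠ 0 := hb4
    have ga : ContinuousAt (fun x : ((ZMod n → ℂ) × ℂ) × ℂ => x.1.1 i) ((v₀, q₀), w) := by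
      apply Continuous.continuousAt; fun_prop
    have gb : ContinuousAt (fun x : ((ZMod n → ℂ) × ℂ) × ℂ => x.1.1 (i + 1)) ((v₀, q₀), w) := by
      apply Continuous.continuousAt; fun_prop
    have gV : ContinuousAt (fun x : ((ZMod n → ℂ) × ℂ) × ℂ => V' x.1) ((v₀, q₀), w) :=
      ContinuousAt.comp (g := V') (f := Prod.fst) hV' continuousAt_fst
    have gw : ContinuousAt (fun x : ((ZMod n → ℂ) × ℂ) × ℂ => x.2) ((v₀, q₀), w) := continuousAt_snd
    have hF : ContinuousAt (fun x : ((ZMod n → ℂ) × ℂ) × ℂ =>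
        hit (x.1.1 i) (x.1.1 (i + 1)) (V' x.1) x.2) ((v₀, q₀), w) := ca_hit ga gb gV gw hb4'
    have hpar : ContinuousAt (fun x : ((ZMod n → ℂ) × ℂ) × ℂ =>
        par (x.1.1 i) (x.1.1 (i + 1)) (V' x.1) x.2) ((v₀, q₀), w) := ca_par ga gb gV gw hb4'
    have hdt : ContinuousAt (fun x : ((ZMod n → ℂ) × ℂ) × ℂ =>
        det (x.1.1 (i + 1) - x.1.1 i) (x.2 - V' x.1)) ((v₀, q₀), w) := ca_det (gb.sub ga) (gw.sub gV)
    have t1 : Tendsto (fun x : ((ZMod n → ℂ) × ℂ) × ℂ =>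
        (x.1, hit (x.1.1 i) (x.1.1 (i + 1)) (V' x.1) x.2)) (𝓝 ((v₀, q₀), w)) (𝓝 ((v₀, q₀), z)) := by
      have : ContinuousAt (fun x : ((ZMod n → ℂ) × ℂ) × ℂ =>
        (x.1, hit (x.1.1 i) (x.1.1 (i + 1)) (V' x.1) x.2)) ((v₀, q₀), w) :=
        ContinuousAt.prodMk continuousAt_fst hF
      have h2 := this.tendsto
      simp only [hV0, hb1] at h2
      exact h2
    have t2 : Tendsto (fun x : ((ZMod n → ℂ) × ℂ) × ℂ =>
        ((x.1.1, hit (x.1.1 i) (x.1.1 (i + 1)) (V' x.1) x.2), x.2)) (𝓝 ((v₀, q₀), w)) (𝓝 ((v₀, z), w)) := by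
      have : ContinuousAt (fun x : ((ZMod n → ℂ) × ℂ) × ℂ =>
        ((x.1.1, hit (x.1.1 i) (x.1.1 (i + 1)) (V' x.1) x.2), x.2)) ((v₀, q₀), w) := by
        apply ContinuousAt.prodMk _ continuousAt_snd
        apply ContinuousAt.prodMk _ hF
        apply Continuous.continuousAt; fun_prop
      have h2 := this.tendsto
      simp only [hV0, hb1] at h2
      exact h2
    have t3 : Tendsto (fun x : ((ZMod n → ℂ) × ℂ) × ℂ =>
        ((x.1.1 i, x.1.1 (i + 1)), hit (x.1.1 i) (x.1.1 (i + 1)) (V' x.1) x.2)) (𝓝 ((v₀, q₀), w))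
        (𝓝 ((v₀ i, v₀ (i + 1)), z)) := by
      have : ContinuousAt (fun x : ((ZMod n → ℂ) × ℂ) × ℂ =>
        ((x.1.1 i, x.1.1 (i + 1)), hit (x.1.1 i) (x.1.1 (i + 1)) (V' x.1) x.2)) ((v₀, q₀), w) := by
        apply ContinuousAt.prodMk _ hF
        apply Continuous.continuousAt; fun_prop
      have h2 := this.tendsto
      simp only [hV0, hb1] at h2
      exact h2
    have p1 := (continuousAt_const (y := (0 : ℝ))).eventually_lt hpar hb2
    have p2 := hpar.eventually_lt (continuousAt_const (y := (1 : ℝ))) hb3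
    have p3 := hdt.eventually_ne hb4
    filter_upwards [t1.eventually hz', t2.eventually hseg, t3.eventually hopen, p1, p2, p3] with
      x e1 e2 e3 e4 e5 e6 P hP hx
    set z' := hit (x.1.1 i) (x.1.1 (i + 1)) (V' x.1) x.2 with hz'def
    set s := par (x.1.1 i) (x.1.1 (i + 1)) (V' x.1) x.2 with hsdef
    have hl : det (x.1.1 (i + 1) - x.1.1 i) (z' - x.1.1 i) = 0 := hit_line _ _ _ _ e6
    have hzo : z' ∈ openSegment ℝ (x.1.1 i) (x.1.1 (i + 1)) := e3 hl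
    obtain ⟨c', hc', hray⟩ := e1 P hP (frontier_mem hP i hzo)
    have hrefl : H42I.refl (x.1.1 (i + 1) - x.1.1 i) ((c' : ℂ) * (z' - V x.1)) = (c' : ℂ) * (z' - V' x.1) := by
      rw [refl_real, refl_line _ _ _ _ (ne_succ hP i) hl]
    have hzV : z' - V' x.1 = (s : ℂ) * (x.2 - V' x.1) := by
      rw [hz'def]; unfold hit; ring
    have hwz' : x.2 = z' + ((1 - s : ℝ) : ℂ) * (x.2 - V' x.1) := by
      push_cast
      linear_combination (-1 : ℂ) * hzV
    refine ⟨c' * s, mul_pos hc' e4, ?_⟩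
    have hb := Ray.bounce (P := P) (v := x.1.1) z' _ x.2 i ((1 - s) / (s * c')) hray hzo
      (div_pos (by linarith) (mul_pos e4 hc')) (by
        rw [hrefl, hzV]
        rw [← mul_assoc, ← mul_assoc, ← Complex.ofReal_mul, ← Complex.ofReal_mul]
        have : (1 - s) / (s * c') * c' * s = 1 - s := by
          have h1 : s ≠ 0 := e4.ne'
          have h2 : c' ≠ 0 := hc'.ne'
          field_simp
        rw [this]
        exact hwz') (e2 P hP hzo hx)
    rw [hrefl, hzV, ← mul_assoc, ← Complex.ofReal_mul] at hb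
    exact hb

theorem ray_lit {n : ℕ} (P₀ : Set ℂ) (v₀ : ZMod n → ℂ) (h₀ : IsPolygon P₀ v₀) (hF : Facts P₀ v₀) (q₀ : ℂ)
    (hq : q₀ ∈ interior P₀) (z d : ℂ) (hr : Ray P₀ v₀ q₀ z d) : LitS v₀ q₀ z d := by
  induction hr with
  | start z hz h => exact lit_start P₀ v₀ h₀ hF q₀ z hq hz h
  | bounce z d w i t hd hz ht hw h ih => exact lit_bounce P₀ v₀ h₀ hF q₀ z d w i t ih hz ht hw h

theorem robust {n : ℕ} (P₀ : Set ℂ) (v₀ : ZMod n → ℂ) (h₀ : IsPolygon P₀ v₀) (hF : Facts P₀ v₀) (q₀ : ℂ)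
    (hq : q₀ ∈ interior P₀)
    (hall : ∀ y ∈ P₀, y = q₀ ∨ ∃ d, Ray P₀ v₀ q₀ y d ∧ GoodArr v₀ y d) :
    ∀ᶠ x in 𝓝 (v₀, q₀), ∀ P, IsPolygon P x.1 → Illuminable P x.1 x.2 := by
  let W : Set (((ZMod n → ℂ) × ℂ) × ℂ) := {x | ∀ P, IsPolygon P x.1.1 → x.2 ∈ P →
    (x.2 = x.1.2 ∨ ∃ d, Ray P x.1.1 x.1.2 x.2 d)}
  have hW : ∀ y ∈ P₀, W ∈ 𝓝 ((v₀, q₀), y) := by
    intro y hy
    rcases hall y hy with rfl | ⟨d, hr, hg⟩
    · obtain ⟨r, hr, hev⟩ := hF.inside y hq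
      have c1 : Tendsto (fun x : ((ZMod n → ℂ) × ℂ) × ℂ => x.1.1) (𝓝 ((v₀, y), y)) (𝓝 v₀) := by
        apply Continuous.tendsto'
        · fun_prop
        · rfl
      have c2 : Tendsto (fun x : ((ZMod n → ℂ) × ℂ) × ℂ => x.1.2) (𝓝 ((v₀, y), y)) (𝓝 y) := by
        apply Continuous.tendsto'
        · fun_prop
        · rfl
      have c3 : Tendsto (fun x : ((ZMod n → ℂ) × ℂ) × ℂ => x.2) (𝓝 ((v₀, y), y)) (𝓝 y) := by
        apply Continuous.tendsto'
        · fun_prop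
        · rfl
      filter_upwards [c1.eventually hev, c2.eventually (ball_mem_nhds y hr), c3.eventually (ball_mem_nhds y hr)]
        with x h1 h2 h3 P hP hx
      by_cases hxx : x.2 = x.1.2
      · exact Or.inl hxx
      · right
        refine ⟨_, Ray.start x.2 hxx ?_⟩
        refine subset_trans ?_ (h1 P hP)
        exact (openSegment_subset_segment _ _ _).trans ((convex_ball y r).segment_subset h2 h3)
    · obtain ⟨V, c, _, _, _, hst⟩ := ray_lit P₀ v₀ h₀ hF q₀ hq y d hr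
      filter_upwards [hst hg] with x hx P hP hxP
      obtain ⟨c', _, hr'⟩ := hx P hP hxP
      exact Or.inr ⟨_, hr'⟩
  obtain ⟨u, U, hu, hU, hsu, hPU, hsub⟩ := generalized_tube_lemma (isCompact_singleton (x := (v₀, q₀)))
    h₀.compact (isOpen_interior (s := W)) (by
      rintro ⟨x, y⟩ ⟨hx, hy⟩
      have hx' : x = (v₀, q₀) := hx
      subst hx'
      exact mem_interior_iff_mem_nhds.2 (hW y hy))
  have h1 : ∀ᶠ x in 𝓝 (v₀, q₀), x ∈ u := hu.mem_nhds (hsu rfl)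
  have c1 : Tendsto (fun x : (ZMod n → ℂ) × ℂ => x.1) (𝓝 (v₀, q₀)) (𝓝 v₀) := by
    apply Continuous.tendsto'
    · fun_prop
    · rfl
  filter_upwards [h1, c1.eventually (subset_stable P₀ v₀ h₀ hF U hU hPU)] with x hx1 hx2 P hP y hy
  have hmem : (x, y) ∈ W := interior_subset (hsub ⟨hx1, hx2 P hP hy⟩)
  exact hmem P hP hy

end Pool.Agent.Lib.H32W
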