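import Mathlib
import Pool.Agent.Lib.H32W.Robust

/-!
# MP_273810_co: good arrivals in a rectilinear polygon (library H32W, helper32)

At a vertex of a polygon with horizontal and vertical sides there is a quadrant, contained in the interior near the
vertex, such that all arrivals through this quadrant are good.
-/

open Set Metric Filter Topology

namespace Pool.Agent.Lib.H32W

open Pool.Agent.Lib.H42I (Ray IsPolygon Illuminable)

/-- near a vertex only two sides -/
theorem vertex_ball {n : ℕ} {P : Set ℂ} {v : ZMod n → ℂ} (h : IsPolygon P v) (i : ZMod n) :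
    ∃ r > 0, ∀ j, j ≠ i → j ≠ i - 1 → Disjoint (ball (v i) r) (segment ℝ (v j) (v (j + 1))) := by
  have : NeZero n := ⟨by have := h.three_le; omega⟩
  have key : ∀ᶠ r in 𝓝[>] (0 : ℝ), ∀ j, j ≠ i → j ≠ i - 1 →
      Disjoint (ball (v i) r) (segment ℝ (v j) (v (j + 1))) := by
    rw [Filter.eventually_all]
    intro j
    by_cases hj : j = i
    · subst hj; simp
    by_cases hj' : j = i - 1
    · subst hj'; simp
    have hnot : v i ∉ segment ℝ (v j) (v (j + 1)) := by
      intro hmem
      have h1 := h.simple i j (Ne.symm hj) ⟨left_mem_segment ℝ _ _, hmem⟩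
      rcases h1.2 with h2 | h2
      · exact hj (h.inj h2).symm
      · have h3 : i = j + 1 := h.inj h2
        exact hj' (by rw [h3]; ring)
    filter_upwards [near_off' v (v i) j hnot] with r hr _ _
    exact hr.self_of_nhds
  obtain ⟨r, hr1, hr2⟩ := (key.and self_mem_nhdsWithin).exists
  exact ⟨r, hr2, hr1⟩

/-- a convex set near a vertex which avoids the two sides and meets the interior lies in the interior -/
theorem near_vertex_conn {n : ℕ} {P : Set ℂ} {v : ZMod n → ℂ} (h : IsPolygon P v) (i : ZMod n) (r : ℝ)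
    (hr : ∀ j, j ≠ i → j ≠ i - 1 → Disjoint (ball (v i) r) (segment ℝ (v j) (v (j + 1))))
    (C : Set ℂ) (hC : Convex ℝ C) (hCr : C ⊆ ball (v i) r)
    (h1 : Disjoint C (segment ℝ (v i) (v (i + 1)))) (h2 : Disjoint C (segment ℝ (v (i - 1)) (v i)))
    (h3 : (C ∩ interior P).Nonempty) : C ⊆ interior P := by
  apply conn_interior P C hC.isPreconnected _ h3
  rw [h.frontier_eq, Set.disjoint_iUnion_right]
  intro j
  by_cases hj : j = i
  · subst hj; exact h1
  by_cases hj' : j = i - 1
  · subst hj'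
    have : i - 1 + 1 = i := by ring
    rw [this]; exact h2
  exact (hr j hj hj').mono_left hCr

theorem convex_re (w : ℂ) (r σ : ℝ) : Convex ℝ (ball w r ∩ {x | 0 < σ * (x.re - w.re)}) := by
  apply (convex_ball w r).inter
  intro x hx y hy a b ha hb hab
  have hx' : 0 < σ * (x.re - w.re) := hx
  have hy' : 0 < σ * (y.re - w.re) := hy
  show 0 < σ * ((a • x + b • y).re - w.re)
  have e : σ * ((a • x + b • y).re - w.re) = a * (σ * (x.re - w.re)) + b * (σ * (y.re - w.re)) := by
    simp only [Complex.add_re, Complex.smul_re, smul_eq_mul]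
    linear_combination σ * w.re * hab
  rw [e]
  rcases eq_or_lt_of_le ha with h0 | h0
  · have : b = 1 := by linarith
    rw [← h0, this]; linarith
  · have := mul_pos h0 hx'
    have := mul_nonneg hb hy'.le
    linarith

theorem convex_im (w : ℂ) (r τ : ℝ) : Convex ℝ (ball w r ∩ {x | 0 < τ * (x.im - w.im)}) := by
  apply (convex_ball w r).inter
  intro x hx y hy a b ha hb hab
  have hx' : 0 < τ * (x.im - w.im) := hx
  have hy' : 0 < τ * (y.im - w.im) := hy
  show 0 < τ * ((a • x + b • y).im - w.im)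
  have e : τ * ((a • x + b • y).im - w.im) = a * (τ * (x.im - w.im)) + b * (τ * (y.im - w.im)) := by
    simp only [Complex.add_im, Complex.smul_im, smul_eq_mul]
    linear_combination τ * w.im * hab
  rw [e]
  rcases eq_or_lt_of_le ha with h0 | h0
  · have : b = 1 := by linarith
    rw [← h0, this]; linarith
  · have := mul_pos h0 hx'
    have := mul_nonneg hb hy'.le
    linarith

/-- the part of the quadrant with signs `σ`, `τ` at `w` in a ball -/
def Quad (w : ℂ) (r σ τ : ℝ) : Set ℂ :=
  (ball w r ∩ {x | 0 < σ * (x.re - w.re)}) ∩ (ball w r ∩ {x | 0 < τ * (x.im - w.im)})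

theorem convex_quad (w : ℂ) (r σ τ : ℝ) : Convex ℝ (Quad w r σ τ) :=
  (convex_re w r σ).inter (convex_im w r τ)

/-- an interior point near the vertex, in none of the two axis-parallel lines through the vertex -/
theorem exists_generic {n : ℕ} {P : Set ℂ} {v : ZMod n → ℂ} (h : IsPolygon P v) (i : ZMod n) (r : ℝ)
    (hr : 0 < r) : ∃ x ∈ ball (v i) r ∩ interior P, x.re ≠ (v i).re ∧ x.im ≠ (v i).im := by
  have hmem : v i ∈ closure (interior P) := by
    rw [h.closure_interior]
    exact h.compact.isClosed.frontier_subset (frontier_subset' h i (left_mem_segment ℝ _ _))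
  obtain ⟨x, hx1, hx2⟩ := mem_closure_iff.1 hmem (ball (v i) r) isOpen_ball (mem_ball_self hr)
  have hopen : IsOpen (ball (v i) r ∩ interior P) := isOpen_ball.inter isOpen_interior
  have hc : Tendsto (fun t : ℝ => x + (t : ℂ) * (1 + Complex.I)) (𝓝 0) (𝓝 x) := by
    apply Continuous.tendsto'
    · fun_prop
    · simp
  have h1 : ∀ᶠ t : ℝ in 𝓝[>] 0, x + (t : ℂ) * (1 + Complex.I) ∈ ball (v i) r ∩ interior P :=
    (hc.eventually (hopen.mem_nhds ⟨hx1, hx2⟩)).filter_mono nhdsWithin_le_nhds
  have h2 : ∀ c : ℝ, ∀ᶠ t : ℝ in 𝓝[>] 0, t ≠ c := by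
    intro c
    rcases le_or_gt c 0 with hc0 | hc0
    · filter_upwards [self_mem_nhdsWithin] with t ht
      have : 0 < t := ht
      intro h0; linarith
    · filter_upwards [(gt_mem_nhds hc0).filter_mono nhdsWithin_le_nhds] with t ht
      exact ht.ne
  obtain ⟨t, ht1, ht2, ht3⟩ := (h1.and ((h2 ((v i).re - x.re)).and (h2 ((v i).im - x.im)))).exists
  refine ⟨_, ht1, ?_, ?_⟩
  · intro h0
    apply ht2
    simp at h0
    linarith
  · intro h0
    apply ht3
    simp at h0
    linarith

/-- perpendicular sides: two opposite quadrants, one of them inside -/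
theorem corner_perp {n : ℕ} {P : Set ℂ} {v : ZMod n → ℂ} (h : IsPolygon P v) (i : ZMod n) (r : ℝ) (hr0 : 0 < r)
    (hr : ∀ j, j ≠ i → j ≠ i - 1 → Disjoint (ball (v i) r) (segment ℝ (v j) (v (j + 1))))
    (ρ κ : ℝ) (hρ : ρ ≠ 0) (hκ : κ ≠ 0)
    (hH : ((∀ x ∈ segment ℝ (v i) (v (i + 1)), x.im = (v i).im ∧ 0 ≤ ρ * (x.re - (v i).re)) ∧
        ∀ x ∈ segment ℝ (v (i - 1)) (v i), x.re = (v i).re ∧ 0 ≤ κ * (x.im - (v i).im)) ∨
      ((∀ x ∈ segment ℝ (v (i - 1)) (v i), x.im = (v i).im ∧ 0 ≤ ρ * (x.re - (v i).re)) ∧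
        ∀ x ∈ segment ℝ (v i) (v (i + 1)), x.re = (v i).re ∧ 0 ≤ κ * (x.im - (v i).im))) :
    Quad (v i) r (-ρ) (-κ) ⊆ interior P ∨ Quad (v i) r ρ κ ⊆ interior P := by
  obtain ⟨x, ⟨hx1, hx2⟩, hxre, hxim⟩ := exists_generic h i r hr0
  have hre : x.re - (v i).re ≠ 0 := sub_ne_zero.2 hxre
  have him : x.im - (v i).im ≠ 0 := sub_ne_zero.2 hxim
  -- properties of all boundary points on the two sides
  have hall : ∀ y, (y ∈ segment ℝ (v i) (v (i + 1)) ∨ y ∈ segment ℝ (v (i - 1)) (v i)) →
      (y.im = (v i).im ∧ 0 ≤ ρ * (y.re - (v i).re)) ∨ (y.re = (v i).re ∧ 0 ≤ κ * (y.im - (v i).im)) := by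
    intro y hy
    rcases hH with ⟨h1, h2⟩ | ⟨h1, h2⟩ <;> rcases hy with hy | hy
    · exact Or.inl (h1 y hy)
    · exact Or.inr (h2 y hy)
    · exact Or.inr (h2 y hy)
    · exact Or.inl (h1 y hy)
  have conn : ∀ C : Set ℂ, Convex ℝ C → C ⊆ ball (v i) r → x ∈ C →
      (∀ y ∈ C, ¬ ((y.im = (v i).im ∧ 0 ≤ ρ * (y.re - (v i).re)) ∨
        (y.re = (v i).re ∧ 0 ≤ κ * (y.im - (v i).im)))) → C ⊆ interior P := by
    intro C hC hCr hxC hdis
    apply near_vertex_conn h i r hr C hC hCr
    · rw [Set.disjoint_left]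
      intro y hy hy'
      exact hdis y hy (hall y (Or.inl hy'))
    · rw [Set.disjoint_left]
      intro y hy hy'
      exact hdis y hy (hall y (Or.inr hy'))
    · exact ⟨x, hxC, hx2⟩
  rcases lt_or_gt_of_ne (mul_ne_zero hρ hre) with h1 | h1
  · -- `x` on the side `-ρ`
    left
    have hsub := conn (ball (v i) r ∩ {x | 0 < (-ρ) * (x.re - (v i).re)}) (convex_re _ _ _) inter_subset_left
      ⟨hx1, by show 0 < (-ρ) * (x.re - (v i).re); linarith⟩ (by
        rintro y ⟨_, hy⟩ hcon
        have hy' : 0 < (-ρ) * (y.re - (v i).re) := hy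
        rcases hcon with ⟨_, h3⟩ | ⟨h3, _⟩
        · linarith
        · rw [h3] at hy'; simp at hy')
    exact inter_subset_left.trans hsub
  · rcases lt_or_gt_of_ne (mul_ne_zero hκ him) with h2 | h2
    · left
      have hsub := conn (ball (v i) r ∩ {x | 0 < (-κ) * (x.im - (v i).im)}) (convex_im _ _ _) inter_subset_left
        ⟨hx1, by show 0 < (-κ) * (x.im - (v i).im); linarith⟩ (by
          rintro y ⟨_, hy⟩ hcon
          have hy' : 0 < (-κ) * (y.im - (v i).im) := hy
          rcases hcon with ⟨h3, _⟩ | ⟨_, h3⟩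
          · rw [h3] at hy'; simp at hy'
          · linarith)
      exact inter_subset_right.trans hsub
    · right
      apply conn (Quad (v i) r ρ κ) (convex_quad _ _ _ _) (fun y hy => hy.1.1)
        ⟨⟨hx1, h1⟩, ⟨hx1, h2⟩⟩
      rintro y ⟨⟨_, hy1⟩, ⟨_, hy2⟩⟩ hcon
      have hy1' : 0 < ρ * (y.re - (v i).re) := hy1
      have hy2' : 0 < κ * (y.im - (v i).im) := hy2
      rcases hcon with ⟨h3, _⟩ | ⟨h3, _⟩
      · rw [h3] at hy2'; simp at hy2'
      · rw [h3] at hy1'; simp at hy1'

/-- both sides in the axis-parallel cross: some quadrant is inside -/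
theorem corner_any {n : ℕ} {P : Set ℂ} {v : ZMod n → ℂ} (h : IsPolygon P v) (i : ZMod n) (r : ℝ) (hr0 : 0 < r)
    (hr : ∀ j, j ≠ i → j ≠ i - 1 → Disjoint (ball (v i) r) (segment ℝ (v j) (v (j + 1))))
    (hH : ∀ y, (y ∈ segment ℝ (v i) (v (i + 1)) ∨ y ∈ segment ℝ (v (i - 1)) (v i)) →
      y.im = (v i).im ∨ y.re = (v i).re) :
    ∃ σ τ : ℝ, σ ≠ 0 ∧ τ ≠ 0 ∧ Quad (v i) r σ τ ⊆ interior P := by
  obtain ⟨x, ⟨hx1, hx2⟩, hxre, hxim⟩ := exists_generic h i r hr0
  have hre : x.re - (v i).re ≠ 0 := sub_ne_zero.2 hxre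
  have him : x.im - (v i).im ≠ 0 := sub_ne_zero.2 hxim
  refine ⟨x.re - (v i).re, x.im - (v i).im, hre, him, ?_⟩
  have hdis : ∀ y ∈ Quad (v i) r (x.re - (v i).re) (x.im - (v i).im), ¬ (y.im = (v i).im ∨ y.re = (v i).re) := by
    rintro y ⟨⟨_, hy1⟩, ⟨_, hy2⟩⟩ hcon
    have hy1' : 0 < (x.re - (v i).re) * (y.re - (v i).re) := hy1
    have hy2' : 0 < (x.im - (v i).im) * (y.im - (v i).im) := hy2
    rcases hcon with h3 | h3
    · rw [h3] at hy2'; simp at hy2'
    · rw [h3] at hy1'; simp at hy1'
  apply near_vertex_conn h i r hr _ (convex_quad _ _ _ _) (fun y hy => hy.1.1)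
  · rw [Set.disjoint_left]
    intro y hy hy'
    exact hdis y hy (hH y (Or.inl hy'))
  · rw [Set.disjoint_left]
    intro y hy hy'
    exact hdis y hy (hH y (Or.inr hy'))
  · refine ⟨x, ⟨⟨hx1, ?_⟩, ⟨hx1, ?_⟩⟩, hx2⟩
    · show 0 < (x.re - (v i).re) * (x.re - (v i).re)
      exact mul_self_pos.2 hre
    · show 0 < (x.im - (v i).im) * (x.im - (v i).im)
      exact mul_self_pos.2 him

theorem seg_param {a b x : ℂ} (hx : x ∈ segment ℝ a b) : ∃ s : ℝ, 0 ≤ s ∧ s ≤ 1 ∧ x = a + (s : ℂ) * (b - a) := by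
  obtain ⟨s, t, hs, ht, hst, rfl⟩ := hx
  refine ⟨t, ht, by linarith, ?_⟩
  have : (s : ℂ) = 1 - t := by
    rw [← Complex.ofReal_one, ← hst]; push_cast; ring
  simp only [Complex.real_smul, this]; ring

/-- two collinear adjacent sides go in the same direction -/
theorem straight_pos {n : ℕ} {P : Set ℂ} {v : ZMod n → ℂ} (h : IsPolygon P v) (i : ZMod n) (c : ℝ)
    (hc : v (i + 1) - v i = (c : ℂ) * (v i - v (i - 1))) : 0 < c := by
  by_contra hcon
  rw [not_lt] at hcon
  have hne1 : v i ≠ v (i + 1) := ne_succ h i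
  have e1 : i - 1 + 1 = i := by ring
  have hne2 : v (i - 1) ≠ v i := by
    have := ne_succ h (i - 1)
    rwa [e1] at this
  have hc0 : c ≠ 0 := by
    rintro rfl
    apply hne1
    have : v (i + 1) - v i = 0 := by rw [hc]; simp
    exact (sub_eq_zero.1 this).symm
  have hcneg : c < 0 := lt_of_le_of_ne hcon hc0
  -- common point
  set s : ℝ := min 1 (-1 / c) / 2 with hs
  have hm : 0 < min 1 (-1 / c) := lt_min one_pos (div_pos_of_neg_of_neg (by norm_num) hcneg)
  have hs0 : 0 < s := by rw [hs]; linarith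
  have hs1 : s < 1 := by
    have : min 1 (-1 / c) ≤ 1 := min_le_left _ _
    rw [hs]; linarith
  have hs2 : s * (-c) ≤ 1 := by
    have h1 : min 1 (-1 / c) ≤ -1 / c := min_le_right _ _
    have h2 : s ≤ -1 / c := by rw [hs]; linarith
    calc s * (-c) ≤ (-1 / c) * (-c) := mul_le_mul_of_nonneg_right h2 (by linarith)
      _ = 1 := by field_simp
  have hz1 : v i + (s : ℂ) * (v (i + 1) - v i) ∈ segment ℝ (v i) (v (i + 1)) :=
    openSegment_subset_segment _ _ _ (mem_openSeg _ _ s hs0 hs1)
  have hz2 : v i + (s : ℂ) * (v (i + 1) - v i) ∈ segment ℝ (v (i - 1)) (v (i - 1 + 1)) := by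
    rw [e1, hc]
    refine ⟨s * (-c), 1 - s * (-c), by nlinarith, by linarith, by ring, ?_⟩
    simp only [Complex.real_smul]; push_cast; ring
  have hij : i ≠ i - 1 := by
    intro h0
    have := h.three_le
    have : Fact (1 < n) := ⟨by omega⟩
    have : (1 : ZMod n) = 0 := by
      have := congrArg (fun x => i - x) h0
      simpa using this.symm
    exact one_ne_zero this
  have hz := (h.simple i (i - 1) hij ⟨hz1, hz2⟩).1
  have hd : v (i + 1) - v i ≠ 0 := sub_ne_zero.2 hne1.symm
  rcases hz with h0 | h0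
  · have : (s : ℂ) * (v (i + 1) - v i) = 0 := by linear_combination h0
    rcases mul_eq_zero.1 this with h2 | h2
    · exact hs0.ne' (by exact_mod_cast h2)
    · exact hd h2
  · have h0' : v i + (s : ℂ) * (v (i + 1) - v i) = v (i + 1) := h0
    have : ((1 - s : ℝ) : ℂ) * (v (i + 1) - v i) = 0 := by push_cast; linear_combination -h0'
    rcases mul_eq_zero.1 this with h2 | h2
    · have : (1 - s : ℝ) = 0 := by exact_mod_cast h2
      linarith
    · exact hd h2

/-- CORNER: at every vertex of a rectilinear polygon there is a quadrant inside through which all arrivals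
are good. -/
theorem corner {n : ℕ} {P : Set ℂ} {v : ZMod n → ℂ} (h : IsPolygon P v)
    (hax : ∀ i, (v i).re = (v (i + 1)).re ∨ (v i).im = (v (i + 1)).im) (i : ZMod n) :
    ∃ r σ τ : ℝ, 0 < r ∧ σ ≠ 0 ∧ τ ≠ 0 ∧ Quad (v i) r σ τ ⊆ interior P ∧
      ∀ d : ℂ, σ * d.re < 0 → τ * d.im < 0 → 0 < det (v i - v (i - 1)) d * det (v (i + 1) - v i) d := by
  obtain ⟨r, hr0, hr⟩ := vertex_ball h i
  have e1 : i - 1 + 1 = i := by ring
  have hne1 : v (i + 1) - v i ≠ 0 := sub_ne_zero.2 (ne_succ h i).symm
  have hne2 : v i - v (i - 1) ≠ 0 := by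
    have := ne_succ h (i - 1)
    rw [e1] at this
    exact sub_ne_zero.2 this.symm
  have hA := hax (i - 1)
  rw [e1] at hA
  have hB := hax i
  -- parametrisations of the two sides
  have hsA : ∀ x ∈ segment ℝ (v (i - 1)) (v i), ∃ s : ℝ, 0 ≤ s ∧ x.re - (v i).re = -s * (v i - v (i - 1)).re ∧
      x.im - (v i).im = -s * (v i - v (i - 1)).im := by
    intro x hx
    obtain ⟨s, hs0, hs1, rfl⟩ := seg_param hx
    refine ⟨1 - s, by linarith, ?_, ?_⟩ <;> simp <;> ring
  have hsB : ∀ x ∈ segment ℝ (v i) (v (i + 1)), ∃ s : ℝ, 0 ≤ s ∧ x.re - (v i).re = s * (v (i + 1) - v i).re ∧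
      x.im - (v i).im = s * (v (i + 1) - v i).im := by
    intro x hx
    obtain ⟨s, hs0, hs1, rfl⟩ := seg_param hx
    refine ⟨s, hs0, ?_, ?_⟩ <;> simp
  set A := v i - v (i - 1) with hAdef
  set B := v (i + 1) - v i with hBdef
  rcases hA with hA | hA
  · -- `A` vertical
    have hA0 : A.re = 0 := by rw [hAdef, Complex.sub_re, hA]; ring
    have hA1 : A.im ≠ 0 := by
      intro h0; exact hne2 (Complex.ext hA0 h0)
    rcases hB with hB | hB
    · -- `B` vertical
      have hB0 : B.re = 0 := by rw [hBdef, Complex.sub_re, ← hB]; ring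
      have hB1 : B.im ≠ 0 := by
        intro h0; exact hne1 (Complex.ext hB0 h0)
      obtain ⟨σ, τ, hσ, hτ, hQ⟩ := corner_any h i r hr0 hr (by
        rintro y (hy | hy)
        · obtain ⟨s, _, h1, _⟩ := hsB y hy
          right; rw [hB0] at h1; linarith
        · obtain ⟨s, _, h1, _⟩ := hsA y hy
          right; rw [hA0] at h1; linarith)
      have hpos : 0 < B.im / A.im := by
        apply straight_pos h i
        rw [← hBdef, ← hAdef]
        apply Complex.ext
        · simp [hA0, hB0]
        · simp; field_simp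
      have hAB : 0 < A.im * B.im := by
        have : A.im * B.im = (B.im / A.im) * (A.im * A.im) := by field_simp
        rw [this]; exact mul_pos hpos (mul_self_pos.2 hA1)
      refine ⟨r, σ, τ, hr0, hσ, hτ, hQ, ?_⟩
      intro d hd1 hd2
      have hdre : d.re ≠ 0 := by rintro h0; rw [h0] at hd1; simp at hd1
      have : det A d * det B d = (A.im * B.im) * (d.re * d.re) := by
        unfold det; rw [hA0, hB0]; ring
      rw [this]
      exact mul_pos hAB (mul_self_pos.2 hdre)
    · -- `B` horizontal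
      have hB0 : B.im = 0 := by rw [hBdef, Complex.sub_im, ← hB]; ring
      have hB1 : B.re ≠ 0 := by
        intro h0; exact hne1 (Complex.ext h0 hB0)
      have hcase := corner_perp h i r hr0 hr B.re (-A.im) hB1 (neg_ne_zero.2 hA1) (by
        left
        constructor
        · intro x hx
          obtain ⟨s, hs0, h1, h2⟩ := hsB x hx
          refine ⟨by rw [hB0] at h2; linarith, ?_⟩
          rw [h1]
          have : B.re * (s * B.re) = s * (B.re * B.re) := by ring
          rw [this]; exact mul_nonneg hs0 (mul_self_nonneg _)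
        · intro x hx
          obtain ⟨s, hs0, h1, h2⟩ := hsA x hx
          refine ⟨by rw [hA0] at h1; linarith, ?_⟩
          rw [h2]
          have : -A.im * (-s * A.im) = s * (A.im * A.im) := by ring
          rw [this]; exact mul_nonneg hs0 (mul_self_nonneg _))
      have hdet : ∀ d : ℂ, det A d * det B d = -((B.re * d.re) * (A.im * d.im)) := by
        intro d; unfold det; rw [hA0, hB0]; ring
      rcases hcase with hQ | hQ
      · refine ⟨r, -B.re, -(-A.im), hr0, neg_ne_zero.2 hB1, by simpa using hA1, hQ, ?_⟩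
        intro d hd1 hd2
        rw [hdet]
        nlinarith [mul_pos (show 0 < B.re * d.re by linarith) (show 0 < -(A.im * d.im) by linarith)]
      · refine ⟨r, B.re, -A.im, hr0, hB1, neg_ne_zero.2 hA1, hQ, ?_⟩
        intro d hd1 hd2
        rw [hdet]
        nlinarith [mul_pos (show 0 < -(B.re * d.re) by linarith) (show 0 < A.im * d.im by linarith)]
  · -- `A` horizontal
    have hA0 : A.im = 0 := by rw [hAdef, Complex.sub_im, hA]; ring
    have hA1 : A.re ≠ 0 := by
      intro h0; exact hne2 (Complex.ext h0 hA0)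
    rcases hB with hB | hB
    · -- `B` vertical
      have hB0 : B.re = 0 := by rw [hBdef, Complex.sub_re, ← hB]; ring
      have hB1 : B.im ≠ 0 := by
        intro h0; exact hne1 (Complex.ext hB0 h0)
      have hcase := corner_perp h i r hr0 hr (-A.re) B.im (neg_ne_zero.2 hA1) hB1 (by
        right
        constructor
        · intro x hx
          obtain ⟨s, hs0, h1, h2⟩ := hsA x hx
          refine ⟨by rw [hA0] at h2; linarith, ?_⟩
          rw [h1]
          have : -A.re * (-s * A.re) = s * (A.re * A.re) := by ring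
          rw [this]; exact mul_nonneg hs0 (mul_self_nonneg _)
        · intro x hx
          obtain ⟨s, hs0, h1, h2⟩ := hsB x hx
          refine ⟨by rw [hB0] at h1; linarith, ?_⟩
          rw [h2]
          have : B.im * (s * B.im) = s * (B.im * B.im) := by ring
          rw [this]; exact mul_nonneg hs0 (mul_self_nonneg _))
      have hdet : ∀ d : ℂ, det A d * det B d = -((A.re * d.re) * (B.im * d.im)) := by
        intro d; unfold det; rw [hA0, hB0]; ring
      rcases hcase with hQ | hQ
      · refine ⟨r, -(-A.re), -B.im, hr0, by simpa using hA1, neg_ne_zero.2 hB1, hQ, ?_⟩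
        intro d hd1 hd2
        rw [hdet]
        nlinarith [mul_pos (show 0 < -(A.re * d.re) by linarith) (show 0 < B.im * d.im by linarith)]
      · refine ⟨r, -A.re, B.im, hr0, neg_ne_zero.2 hA1, hB1, hQ, ?_⟩
        intro d hd1 hd2
        rw [hdet]
        nlinarith [mul_pos (show 0 < A.re * d.re by linarith) (show 0 < -(B.im * d.im) by linarith)]
    · -- `B` horizontal
      have hB0 : B.im = 0 := by rw [hBdef, Complex.sub_im, ← hB]; ring
      have hB1 : B.re ≠ 0 := by
        intro h0; exact hne1 (Complex.ext h0 hB0)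
      obtain ⟨σ, τ, hσ, hτ, hQ⟩ := corner_any h i r hr0 hr (by
        rintro y (hy | hy)
        · obtain ⟨s, _, _, h1⟩ := hsB y hy
          left; rw [hB0] at h1; linarith
        · obtain ⟨s, _, _, h1⟩ := hsA y hy
          left; rw [hA0] at h1; linarith)
      have hpos : 0 < B.re / A.re := by
        apply straight_pos h i
        rw [← hBdef, ← hAdef]
        apply Complex.ext
        · simp; field_simp
        · simp [hA0, hB0]
      have hAB : 0 < A.re * B.re := by
        have : A.re * B.re = (B.re / A.re) * (A.re * A.re) := by field_simp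
        rw [this]; exact mul_pos hpos (mul_self_pos.2 hA1)
      refine ⟨r, σ, τ, hr0, hσ, hτ, hQ, ?_⟩
      intro d hd1 hd2
      have hdim : d.im ≠ 0 := by rintro h0; rw [h0] at hd2; simp at hd2
      have : det A d * det B d = (A.re * B.re) * (d.im * d.im) := by
        unfold det; rw [hA0, hB0]; ring
      rw [this]
      exact mul_pos hAB (mul_self_pos.2 hdim)

end Pool.Agent.Lib.H32W
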