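import Mathlib
import Pool.Agent.Lib.H32W.Corner

/-!
# MP_273810_co: assembly of the robust theorem (library H32W, helper32)
-/

open Set Metric Filter Topology

namespace Pool.Agent.Lib.H32W

open Pool.Agent.Lib.H42I (Ray IsPolygon Illuminable)

/-- metric form of `robust` -/
theorem robust_metric {n : ℕ} (P₀ : Set ℂ) (v₀ : ZMod n → ℂ) (h₀ : IsPolygon P₀ v₀) (hF : Facts P₀ v₀) (q₀ : ℂ)
    (hq : q₀ ∈ interior P₀)
    (hall : ∀ y ∈ P₀, y = q₀ ∨ ∃ d, Ray P₀ v₀ q₀ y d ∧ GoodArr v₀ y d) :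
    ∃ ε : ℝ, 0 < ε ∧ ∀ (P : Set ℂ) (v : ZMod n → ℂ), IsPolygon P v → (∀ i, ‖v i - v₀ i‖ < ε) →
      ∀ q : ℂ, ‖q - q₀‖ < ε → Illuminable P v q := by
  have : NeZero n := ⟨by have := h₀.three_le; omega⟩
  have h := robust P₀ v₀ h₀ hF q₀ hq hall
  obtain ⟨ε, hε, hb⟩ := Metric.eventually_nhds_iff.1 h
  refine ⟨ε, hε, ?_⟩
  intro P v hP hv q hqq
  apply hb (y := (v, q)) _ P hP
  rw [Prod.dist_eq]
  apply max_lt
  · rw [dist_pi_lt_iff hε]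
    intro i
    rw [dist_eq_norm]
    exact hv i
  · rw [dist_eq_norm]
    exact hqq

/-- a point which is not a vertex: every arrival is good -/
theorem good_of_not_vertex {n : ℕ} (v : ZMod n → ℂ) (y d : ℂ) (hy : ∀ i, y ≠ v i) : GoodArr v y d := by
  by_cases h : ∀ i, y ∉ segment ℝ (v i) (v (i + 1))
  · exact Or.inl h
  · right; left
    push Not at h
    obtain ⟨i, hi⟩ := h
    refine ⟨i, ?_⟩
    rw [← insert_endpoints_openSegment] at hi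
    rcases hi with h1 | h1 | h1
    · exact absurd h1 (hy i)
    · exact absurd h1 (hy (i + 1))
    · exact h1

/-- FINAL ASSEMBLY for rectilinear polygons. -/
theorem final {n : ℕ} (P₀ : Set ℂ) (v₀ : ZMod n → ℂ) (h₀ : IsPolygon P₀ v₀) (hF : Facts P₀ v₀)
    (hax : ∀ i, (v₀ i).re = (v₀ (i + 1)).re ∨ (v₀ i).im = (v₀ (i + 1)).im) (q₀ : ℂ)
    (hq : q₀ ∈ interior P₀)
    (h1 : ∀ y ∈ P₀, y ≠ q₀ → (∀ i, y ≠ v₀ i) → ∃ d, Ray P₀ v₀ q₀ y d)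
    (h2 : ∀ (i : ZMod n) (r σ τ : ℝ), 0 < r → σ ≠ 0 → τ ≠ 0 → Quad (v₀ i) r σ τ ⊆ interior P₀ →
      ∃ d, Ray P₀ v₀ q₀ (v₀ i) d ∧ σ * d.re < 0 ∧ τ * d.im < 0) :
    ∃ ε : ℝ, 0 < ε ∧ ∀ (P : Set ℂ) (v : ZMod n → ℂ), IsPolygon P v → (∀ i, ‖v i - v₀ i‖ < ε) →
      ∀ q : ℂ, ‖q - q₀‖ < ε → Illuminable P v q := by
  apply robust_metric P₀ v₀ h₀ hF q₀ hq
  intro y hy
  by_cases hyq : y = q₀
  · exact Or.inl hyq
  right
  by_cases hv : ∀ i, y ≠ v₀ i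
  · obtain ⟨d, hd⟩ := h1 y hy hyq hv
    exact ⟨d, hd, good_of_not_vertex v₀ y d hv⟩
  · push Not at hv
    obtain ⟨i, rfl⟩ := hv
    obtain ⟨r, σ, τ, hr, hσ, hτ, hQ, hgood⟩ := corner h₀ hax i
    obtain ⟨d, hd, hd1, hd2⟩ := h2 i r σ τ hr hσ hτ hQ
    exact ⟨d, hd, Or.inr (Or.inr ⟨i, rfl, hgood d hd1 hd2⟩)⟩

end Pool.Agent.Lib.H32W
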