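import Mathlib
import Pool.Agent.Lib.H32W.Final
import Pool.Agent.Lib.H52W.Facts
import Pool.Agent.Lib.H42I.GCells1

/-!
# MP_273810_co: from the lighting theorem on cells to the open families (library H32W, helper32)
-/

open Set Metric Filter Topology

namespace Pool.Agent.Lib.H32W

open Pool.Agent.Lib.H42I (Ray IsPolygon Illuminable IsGrid Grid gcells gcells_cover gcell_inside_or_outside)

/-- the interval of the grid on the side `σ` of the grid coordinate `X k` -/
theorem grid_side {X : ℤ → ℝ} (hX : StrictMono X) (k : ℤ) (σ r : ℝ) (hσ : σ ≠ 0) (hr : 0 < r) :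
    ∃ k' : ℤ, X k' ≤ X k ∧ X k ≤ X (k' + 1) ∧
      (∃ x, X k' < x ∧ x < X (k' + 1) ∧ |x - X k| < r) ∧
      ∀ x, X k' < x → x < X (k' + 1) → 0 < σ * (x - X k) := by
  rcases lt_or_gt_of_ne hσ with h | h
  · have h1 : X (k - 1) < X k := hX (by omega)
    refine ⟨k - 1, h1.le, by simp, ?_, ?_⟩
    · set e := min (r / 2) ((X k - X (k - 1)) / 2) with he
      have he0 : 0 < e := lt_min (by linarith) (by linarith)
      have he1 : e ≤ r / 2 := min_le_left _ _
      have he2 : e ≤ (X k - X (k - 1)) / 2 := min_le_right _ _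
      refine ⟨X k - e, by linarith, by simpa using he0, ?_⟩
      rw [show X k - e - X k = -e by ring, abs_neg, abs_of_pos he0]
      linarith
    · intro x _ hx2
      have hx3 : x < X k := by simpa using hx2
      exact mul_pos_of_neg_of_neg h (by linarith)
  · have h1 : X k < X (k + 1) := hX (by omega)
    refine ⟨k, le_rfl, h1.le, ?_, ?_⟩
    · set e := min (r / 2) ((X (k + 1) - X k) / 2) with he
      have he0 : 0 < e := lt_min (by linarith) (by linarith)
      have he1 : e ≤ r / 2 := min_le_left _ _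
      have he2 : e ≤ (X (k + 1) - X k) / 2 := min_le_right _ _
      refine ⟨X k + e, by linarith, by linarith, ?_⟩
      rw [show X k + e - X k = e by ring, abs_of_pos he0]
      linarith
    · intro x hx1 _
      exact mul_pos h (by linarith)

/-- The adapter, grid form. If every point of a rectilinear polygon is reached through every adjacent cell, then all
polygons near it are illuminable. -/
theorem adapter {n : ℕ} {P : Set ℂ} {v : ZMod n → ℂ} {X Y : ℤ → ℝ} (hG : IsGrid P v X Y) (q : ℂ)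
    (hq : q ∈ interior P)
    (hlit : ∀ y ∈ P, ∀ c ∈ gcells P X Y, X c.1 ≤ y.re → y.re ≤ X (c.1 + 1) → Y c.2 ≤ y.im →
      y.im ≤ Y (c.2 + 1) → ∃ d, Ray P v q y d ∧ ∃ t₀ : ℝ, 0 < t₀ ∧ ∀ t : ℝ, 0 < t → t < t₀ →
        X c.1 < (y - t * d).re ∧ (y - t * d).re < X (c.1 + 1) ∧
        Y c.2 < (y - t * d).im ∧ (y - t * d).im < Y (c.2 + 1)) :
    ∃ ε : ℝ, 0 < ε ∧ ∀ (P' : Set ℂ) (v' : ZMod n → ℂ), IsPolygon P' v' → (∀ i, ‖v' i - v i‖ < ε) →
      ∀ q' : ℂ, ‖q' - q‖ < ε → Illuminable P' v' q' := by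
  apply final P v hG.poly (Pool.Agent.H52W.facts hG.poly) hG.axis q hq
  · intro y hy _ _
    obtain ⟨c, hc, h1, h2, h3, h4⟩ := gcells_cover hG y hy
    obtain ⟨d, hd, _⟩ := hlit y hy c hc h1 h2 h3 h4
    exact ⟨d, hd⟩
  · intro i r σ τ hr hσ hτ hQ
    obtain ⟨k, l, hkl⟩ := hG.vert i
    have hre : (v i).re = X k := by rw [hkl]
    have him : (v i).im = Y l := by rw [hkl]
    obtain ⟨k', hk1, hk2, ⟨x, hx1, hx2, hx3⟩, hk4⟩ := grid_side hG.hX.mono k σ (r / 2) hσ (by linarith)
    obtain ⟨l', hl1, hl2, ⟨z, hz1, hz2, hz3⟩, hl4⟩ := grid_side hG.hY.mono l τ (r / 2) hτ (by linarith)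
    have hball : (⟨x, z⟩ : ℂ) ∈ ball (v i) r := by
      rw [mem_ball, dist_eq_norm]
      refine lt_of_le_of_lt (Complex.norm_le_abs_re_add_abs_im _) ?_
      simp only [Complex.sub_re, Complex.sub_im, hre, him]
      linarith
    have hmem : (⟨x, z⟩ : ℂ) ∈ interior P := by
      apply hQ
      refine ⟨⟨hball, ?_⟩, ⟨hball, ?_⟩⟩
      · simpa [hre] using hk4 x hx1 hx2
      · simpa [him] using hl4 z hz1 hz2
    have hc : (k', l') ∈ gcells P X Y := by
      rcases gcell_inside_or_outside hG (k', l') with h | h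
      · exact h
      · exact absurd (interior_subset hmem) (h x z hx1 hx2 hz1 hz2)
    have hvP : v i ∈ P := by
      have h1 : v i ∈ frontier P := by
        rw [hG.poly.frontier_eq]
        exact Set.mem_iUnion.2 ⟨i, left_mem_segment ℝ _ _⟩
      exact hG.poly.compact.isClosed.frontier_subset h1
    obtain ⟨d, hd, t₀, ht₀, hd2⟩ := hlit (v i) hvP (k', l') hc (by simpa [hre] using hk1)
      (by simpa [hre] using hk2) (by simpa [him] using hl1) (by simpa [him] using hl2)
    refine ⟨d, hd, ?_, ?_⟩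
    · obtain ⟨h1, h2, _, _⟩ := hd2 (t₀ / 2) (by linarith) (by linarith)
      have h3 := hk4 _ h1 h2
      have h4 : ((v i) - ((t₀ / 2 : ℝ) : ℂ) * d).re - X k = -(t₀ / 2 * d.re) := by
        rw [← hre]
        simp
      rw [h4] at h3
      nlinarith
    · obtain ⟨_, _, h1, h2⟩ := hd2 (t₀ / 2) (by linarith) (by linarith)
      have h3 := hl4 _ h1 h2
      have h4 : ((v i) - ((t₀ / 2 : ℝ) : ℂ) * d).im - Y l = -(t₀ / 2 * d.im) := by
        rw [← him]
        simp
      rw [h4] at h3
      nlinarith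

end Pool.Agent.Lib.H32W
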