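import Mathlib
import Pool.Agent.Lib.H32W.Final
import Pool.Agent.Lib.H52W.Facts

/-!
# MP_273810_co: from compact sets of sources to almost all sources (library H32W, helper32)
-/

open Set Metric Filter Topology MeasureTheory

namespace Pool.Agent.Lib.H32W

open Pool.Agent.Lib.H42I (Ray IsPolygon Illuminable)

/-- countably many vertical lines have area zero -/
theorem null_re {A : Set ℝ} (hA : A.Countable) : volume {z : ℂ | z.re ∈ A} = 0 := by
  have h1 : {z : ℂ | z.re ∈ A} = Complex.measurableEquivRealProd ⁻¹' (A ×ˢ (univ : Set ℝ)) := by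
    ext z; simp
  rw [h1, Complex.volume_preserving_equiv_real_prod.measure_preimage_equiv]
  rw [Measure.volume_eq_prod, Measure.prod_prod, hA.measure_zero, zero_mul]

/-- countably many horizontal lines have area zero -/
theorem null_im {B : Set ℝ} (hB : B.Countable) : volume {z : ℂ | z.im ∈ B} = 0 := by
  have h1 : {z : ℂ | z.im ∈ B} = Complex.measurableEquivRealProd ⁻¹' ((univ : Set ℝ) ×ˢ B) := by
    ext z; simp
  rw [h1, Complex.volume_preserving_equiv_real_prod.measure_preimage_equiv]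
  rw [Measure.volume_eq_prod, Measure.prod_prod, hB.measure_zero, mul_zero]

/-- AREA FORM. If a property `Il P' v' q'` holds for all polygons `P'` near `P` and all `q'` near a compact subset `K` of
`P` which avoids countably many vertical and horizontal lines, then for polygons near `P` the area of the set of the
points `q'` of `P'` without the property is small. -/
theorem area_form {n : ℕ} {P : Set ℂ} {v : ZMod n → ℂ} (hP : IsPolygon P v) {A B : Set ℝ}
    (hA : A.Countable) (hB : B.Countable) (Il : Set ℂ → (ZMod n → ℂ) → ℂ → Prop)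
    (h : ∀ K : Set ℂ, IsCompact K → K ⊆ P → (∀ q ∈ K, q.re ∉ A ∧ q.im ∉ B) →
      ∃ ε > 0, ∀ (P' : Set ℂ) (v' : ZMod n → ℂ), IsPolygon P' v' → (∀ i, ‖v' i - v i‖ < ε) →
        ∀ q' : ℂ, (∃ q ∈ K, ‖q' - q‖ < ε) → Il P' v' q') (η : ℝ) (hη : 0 < η) :
    ∃ ε > 0, ∀ (P' : Set ℂ) (v' : ZMod n → ℂ), IsPolygon P' v' → (∀ i, ‖v' i - v i‖ < ε) →
      volume {q' ∈ P' | ¬ Il P' v' q'} < ENNReal.ofReal η := by
  have : NeZero n := ⟨by have := hP.three_le; omega⟩
  have hPm : MeasurableSet P := hP.compact.isClosed.measurableSet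
  have hPf : volume P ≠ ⊤ := hP.compact.measure_lt_top.ne
  have hmA : MeasurableSet {z : ℂ | z.re ∈ A} := Complex.measurable_re hA.measurableSet
  have hmB : MeasurableSet {z : ℂ | z.im ∈ B} := Complex.measurable_im hB.measurableSet
  set N : Set ℂ := {z : ℂ | z.re ∈ A} ∪ {z : ℂ | z.im ∈ B} with hN
  have hN0 : volume N = 0 := by
    rw [hN]; exact measure_union_null (null_re hA) (null_im hB)
  have hNm : MeasurableSet N := hmA.union hmB
  have hη2 : ENNReal.ofReal (η / 2) ≠ 0 := by
    rw [Ne, ENNReal.ofReal_eq_zero, not_le]; linarith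
  -- a compact set of good points
  have hPN : volume (P \ N) ≠ ⊤ :=
    (lt_of_le_of_lt (measure_mono sdiff_subset) (lt_top_iff_ne_top.2 hPf)).ne
  obtain ⟨K, hK1, hK2, hK3⟩ := (hPm.diff hNm).exists_isCompact_sdiff_lt hPN hη2
  have hKP : K ⊆ P := hK1.trans sdiff_subset
  obtain ⟨ε₁, hε₁, h1⟩ := h K hK2 hKP (fun q hq => by
    have h2 := (hK1 hq).2
    rw [hN, mem_union, not_or] at h2
    exact h2)
  -- an open set around `P` of almost the same area
  obtain ⟨U, hU1, hU2, _, hU3⟩ := hPm.exists_isOpen_sdiff_lt hPf hη2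
  obtain ⟨ε₂, hε₂, h2⟩ := Metric.eventually_nhds_iff.1
    (subset_stable P v hP (Pool.Agent.H52W.facts hP) U hU2 hU1)
  refine ⟨min ε₁ ε₂, lt_min hε₁ hε₂, fun P' v' hP' hv' => ?_⟩
  have h3 : P' ⊆ U := by
    apply h2 (y := v') _ P' hP'
    rw [dist_pi_lt_iff hε₂]
    intro i
    rw [dist_eq_norm]
    exact (hv' i).trans_le (min_le_right _ _)
  have h4 : {q' ∈ P' | ¬ Il P' v' q'} ⊆ (U \ P) ∪ ((P \ N) \ K) ∪ N := by
    rintro q ⟨hq1, hq2⟩
    have hqK : q ∉ K := fun hqK => hq2 (h1 P' v' hP' (fun i => (hv' i).trans_le (min_le_left _ _)) q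
      ⟨q, hqK, by simpa using hε₁⟩)
    by_cases hqN : q ∈ N
    · exact Or.inr hqN
    · left
      by_cases hqP : q ∈ P
      · exact Or.inr ⟨⟨hqP, hqN⟩, hqK⟩
      · exact Or.inl ⟨h3 hq1, hqP⟩
  calc volume {q' ∈ P' | ¬ Il P' v' q'} ≤ volume ((U \ P) ∪ ((P \ N) \ K) ∪ N) := measure_mono h4
    _ ≤ volume (U \ P) + volume ((P \ N) \ K) + volume N :=
        (measure_union_le _ _).trans (add_le_add_left (measure_union_le _ _) _)
    _ = volume (U \ P) + volume ((P \ N) \ K) := by rw [hN0, add_zero]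
    _ < ENNReal.ofReal (η / 2) + ENNReal.ofReal (η / 2) := ENNReal.add_lt_add hU3 hK3
    _ = ENNReal.ofReal η := by
        rw [← ENNReal.ofReal_add (by linarith) (by linarith)]; congr 1; ring

end Pool.Agent.Lib.H32W
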