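import Mathlib
import Pool.Agent.Lib.H32W.Adapter
import Pool.Agent.Lib.H42I.GExists
import Pool.Agent.Lib.H42I.GLit

/-!
# MP_273810_co: open families around every rectilinear polygon (library H32W, helper32)
-/

namespace Pool.Agent.Lib.H32W

open Set Pool.Agent.Lib.H42I

/-- Every polygon near a rectilinear polygon is illuminable from every point near a generic point. -/
theorem family {n : ℕ} {P : Set ℂ} {v : ZMod n → ℂ} (hP : IsPolygon P v)
    (hs : ∀ i, (v i).re = (v (i + 1)).re ∨ (v i).im = (v (i + 1)).im) :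
    ∃ A B : Set ℝ, A.Countable ∧ B.Countable ∧ ∀ q ∈ P, q.re ∉ A → q.im ∉ B →
      ∃ ε > 0, ∀ (P' : Set ℂ) (v' : ZMod n → ℂ), IsPolygon P' v' →
        (∀ i, ‖v' i - v i‖ < ε) → ∀ q' : ℂ, ‖q' - q‖ < ε → Illuminable P' v' q' := by
  obtain ⟨X, Y, hL⟩ := exists_isGrid hP hs
  obtain ⟨A, B, hA, hB, hXA, hYB, hlit⟩ := grid_lit hL
  refine ⟨A, B, hA, hB, fun q hq hqA hqB => ?_⟩
  -- `q` lies in an open cell, so in the interior
  obtain ⟨c, hc, h1, h2, h3, h4⟩ := gcells_cover hL q hq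
  have hqi : q ∈ interior P := by
    have h5 : (⟨q.re, q.im⟩ : ℂ) ∈ interior P :=
      hc q.re q.im (lt_of_le_of_ne h1 fun h => hqA (h ▸ hXA _)) (lt_of_le_of_ne h2 fun h => hqA (h ▸ hXA _))
        (lt_of_le_of_ne h3 fun h => hqB (h ▸ hYB _)) (lt_of_le_of_ne h4 fun h => hqB (h ▸ hYB _))
    exact h5
  apply adapter hL q hqi
  intro y hy c' hc' g1 g2 g3 g4
  obtain ⟨D, hD, _, _, t₀, ht₀, hD2⟩ := hlit q hq hqA hqB y hy c' hc' g1 g2 g3 g4
  exact ⟨D, hD, t₀, ht₀, hD2⟩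

end Pool.Agent.Lib.H32W
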