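import Mathlib
import Pool.Agent.Lib.H32W.Adapter
import Pool.Agent.Lib.H42I.Squares

/-!
# MP_273810_co: open families around lattice polygons (library H32W, helper32)
-/

open Set Metric Filter Topology

namespace Pool.Agent.Lib.H32W

open Pool.Agent.Lib.H42I (Ray IsPolygon Illuminable IsGrid Grid gcells IsLattice cells Indep squares)

/-- an arithmetic progression is a grid -/
theorem grid_mul {α : ℝ} (hα : 0 < α) : Grid (fun k : ℤ => α * k) where
  mono := fun a b h => by
    have : (a : ℝ) < b := by exact_mod_cast h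
    exact mul_lt_mul_of_pos_left this hα
  top := Filter.Tendsto.const_mul_atTop hα tendsto_intCast_atTop_atTop
  bot := Filter.Tendsto.const_mul_atBot hα (tendsto_intCast_atBot_iff.2 tendsto_id)

/-- a lattice polygon is a grid polygon -/
theorem isGrid_of_isLattice {n : ℕ} {P : Set ℂ} {v : ZMod n → ℂ} {α β : ℝ} (h : IsLattice P v α β) :
    IsGrid P v (fun k : ℤ => α * k) (fun l : ℤ => β * l) where
  poly := h.poly
  hX := grid_mul h.hα
  hY := grid_mul h.hβ
  vert := fun i => by
    obtain ⟨k, l, hkl⟩ := h.vert i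
    exact ⟨k, l, by rw [hkl]; simp [mul_comm]⟩
  axis := h.axis

/-- the cells are the same -/
theorem gcells_eq_cells {P : Set ℂ} {α β : ℝ} (hα : 0 < α) (hβ : 0 < β) :
    gcells P (fun k : ℤ => α * k) (fun l : ℤ => β * l) = cells P α β := by
  ext c
  simp only [gcells, cells, Set.mem_ofPred_eq]
  constructor
  · intro h u w hu0 hu1 hw0 hw1
    apply h
    · nlinarith
    · push_cast
      nlinarith
    · nlinarith
    · push_cast
      nlinarith
  · intro h x y hx0 hx1 hy0 hy1
    push_cast at hx1 hy1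
    have h1 := h (x / α - c.1) (y / β - c.2) (by rw [sub_pos, lt_div_iff₀ hα]; linarith)
      (by rw [sub_lt_iff_lt_add, div_lt_iff₀ hα]; linarith) (by rw [sub_pos, lt_div_iff₀ hβ]; linarith)
      (by rw [sub_lt_iff_lt_add, div_lt_iff₀ hβ]; linarith)
    have h2 : α * ((c.1 : ℝ) + (x / α - c.1)) = x := by field_simp; ring
    have h3 : β * ((c.2 : ℝ) + (y / β - c.2)) = y := by field_simp; ring
    rw [h2, h3] at h1
    exact h1

/-- Every polygon near a lattice polygon is illuminable from every point near a generic point. -/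
theorem lattice_families {n : ℕ} {P : Set ℂ} {v : ZMod n → ℂ} {α β : ℝ} (hL : IsLattice P v α β) (q : ℂ)
    (hq : q ∈ interior P) (hg : Indep (q.re / α) (q.im / β)) :
    ∃ ε : ℝ, 0 < ε ∧ ∀ (P' : Set ℂ) (v' : ZMod n → ℂ), IsPolygon P' v' → (∀ i, ‖v' i - v i‖ < ε) →
      ∀ q' : ℂ, ‖q' - q‖ < ε → Illuminable P' v' q' := by
  have hα := hL.hα
  have hβ := hL.hβ
  apply adapter (isGrid_of_isLattice hL) q hq
  intro y hy c hc h1 h2 h3 h4
  rw [gcells_eq_cells hα hβ] at hc
  push_cast at h1 h2 h3 h4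
  obtain ⟨d, hd, _, _, t₀, ht₀, hd2⟩ := squares hL q (interior_subset hq) hg y c hc
    ⟨y.re / α - c.1, y.im / β - c.2, by rw [sub_nonneg, le_div_iff₀ hα]; linarith,
      by rw [sub_le_iff_le_add, div_le_iff₀ hα]; linarith, by rw [sub_nonneg, le_div_iff₀ hβ]; linarith,
      by rw [sub_le_iff_le_add, div_le_iff₀ hβ]; linarith, by
        apply Complex.ext
        · simp only
          field_simp; ring
        · simp only
          field_simp; ring⟩
  refine ⟨d, hd, t₀, ht₀, fun t ht1 ht2 => ?_⟩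
  obtain ⟨u, w, hu0, hu1, hw0, hw1, he⟩ := hd2 t ht1 ht2
  rw [he]
  push_cast
  refine ⟨?_, ?_, ?_, ?_⟩ <;> nlinarith

end Pool.Agent.Lib.H32W
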