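import Mathlib
import Pool.Agent.Lib.H32W.Final
import Pool.Agent.Lib.H52W.Facts
import Pool.Agent.Lib.H52W.Jordan
import Pool.Agent.Lib.H52W.MemQ
import Pool.Agent.Lib.H23D.PartV

/-!
# MP_273810_co: an open dense set of n-gons is illuminable: final assembly (library H32W, helper32)
-/

open Set Metric Filter Topology

namespace Pool.Agent.Lib.H32W

open Pool.Agent.Lib.H42I (Ray IsPolygon Illuminable)
open Pool.Agent.H52W (SimpleV)
open Pool.Agent.Lib.H23D (Cls dense_cls)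

/-- The result of part IV: a polygon of the dense class is illuminated from some interior point, with good arrivals. -/
def ClassLit (n : ℕ) [NeZero n] : Prop :=
  ∀ (P : Set ℂ) (v : ZMod n → ℂ) (N : ℕ) (k : ZMod n → ℤ), IsPolygon P v → Cls v N k →
    ∃ q ∈ interior P, ∀ y ∈ P, y = q ∨ ∃ d, Ray P v q y d ∧ GoodArr v y d

/-- The vertex tuples with a robust source of light. -/
def Robust {n : ℕ} (v : ZMod n → ℂ) : Prop :=
  ∃ (q : ℂ) (ε : ℝ), 0 < ε ∧ ∀ (P' : Set ℂ) (v' : ZMod n → ℂ), IsPolygon P' v' → (∀ i, ‖v' i - v i‖ < ε) →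
    ∀ q' : ℂ, ‖q' - q‖ < ε → Illuminable P' v' q'

theorem isOpen_robust {n : ℕ} [NeZero n] : IsOpen {v : ZMod n → ℂ | Robust v} := by
  rw [Metric.isOpen_iff]
  rintro v ⟨q, ε, hε, h⟩
  refine ⟨ε / 2, by linarith, fun w hw => ⟨q, ε / 2, by linarith, fun P' v' hP' hv' q' hq' => ?_⟩⟩
  rw [mem_ball, dist_pi_lt_iff (by linarith)] at hw
  refine h P' v' hP' (fun i => ?_) q' (by linarith)
  have h1 := hv' i
  have h2 := hw i
  rw [dist_eq_norm] at h2
  calc ‖v' i - v i‖ = ‖(v' i - w i) + (w i - v i)‖ := by ring_nf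
    _ ≤ ‖v' i - w i‖ + ‖w i - v i‖ := norm_add_le _ _
    _ < ε := by linarith

theorem isOpen_simple {n : ℕ} [NeZero n] : IsOpen {v : ZMod n → ℂ | SimpleV v} := by
  rw [isOpen_iff_mem_nhds]
  intro v hv
  exact hv.stable

/-- Final assembly. -/
theorem open_dense {n : ℕ} [NeZero n] (hcl : ClassLit n) :
    ∃ O : Set (ZMod n → ℂ), IsOpen O ∧ O ⊆ {v | SimpleV v} ∧ {v | SimpleV v} ⊆ closure O ∧
      ∀ v ∈ O, ∃ P : Set ℂ, IsPolygon P v ∧ (∀ P', IsPolygon P' v → P' = P) ∧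
        ∃ (q : ℂ) (r : ℝ), 0 < r ∧ ball q r ⊆ interior P ∧ ∀ q' ∈ ball q r, Illuminable P v q' := by
  refine ⟨{v | SimpleV v} ∩ {v | Robust v}, isOpen_simple.inter isOpen_robust, inter_subset_left, ?_, ?_⟩
  · intro v hv
    have hv' : SimpleV v := hv
    rw [Metric.mem_closure_iff]
    intro ε hε
    obtain ⟨ε₁, hε₁, h1⟩ := Metric.isOpen_iff.1 isOpen_simple v hv
    obtain ⟨w, N, k, _, hw, hwv⟩ := dense_cls hv'.three_le v (fun i => (hv'.ne_succ i).symm)
      (lt_min hε hε₁) 0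
    have hdist : dist w v < min ε ε₁ := by
      rw [dist_pi_lt_iff (lt_min hε hε₁)]
      intro i
      rw [dist_eq_norm]
      exact hwv i
    have hws : SimpleV w := h1 (hdist.trans_le (min_le_right _ _))
    refine ⟨w, ⟨hws, ?_⟩, by rw [dist_comm]; exact hdist.trans_le (min_le_left _ _)⟩
    obtain ⟨P, hP, _⟩ := Pool.Agent.H52W.exists_polygon hws
    obtain ⟨q, hq, hall⟩ := hcl P w N k hP hw
    obtain ⟨δ, hδ, h2⟩ := robust_metric P w hP (Pool.Agent.H52W.facts hP) q hq hall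
    exact ⟨q, δ, hδ, h2⟩
  · rintro v ⟨hv, q, ε, hε, h⟩
    obtain ⟨P, hP, hu⟩ := Pool.Agent.H52W.exists_polygon hv
    have hill : ∀ q' ∈ ball q ε, Illuminable P v q' := fun q' hq' => by
      apply h P v hP (fun i => by simpa using hε)
      rw [← dist_eq_norm]; exact hq'
    refine ⟨P, hP, hu, q, ε, hε, ?_, hill⟩
    apply interior_maximal _ isOpen_ball
    intro q' hq'
    exact Pool.Agent.Lib.H52W.mem_of_illuminable hP (hill q' hq')

end Pool.Agent.Lib.H32W
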