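import Mathlib
import Pool.Agent.Lib.H32W.OpenDense
import Pool.Agent.Lib.H82R.Unif
import Pool.Agent.Lib.H82R.Area
import Pool.Agent.Lib.H94D.Null

/-!
# MP_273810_co: an open dense set of n-gons is illuminable, area form (library H32W, helper32)
-/

open Set Metric Filter Topology MeasureTheory

namespace Pool.Agent.Lib.H32W

open Pool.Agent.Lib.H42I (Ray IsPolygon Illuminable)
open Pool.Agent.H52W (SimpleV)
open Pool.Agent.Lib.H23D (Cls dense_cls)

/-- The result of part IV, almost everywhere form: a polygon of the dense class is illuminated from almost every point,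
with good arrivals. -/
def ClassLitA (n : ℕ) [NeZero n] : Prop :=
  ∀ (P : Set ℂ) (v : ZMod n → ℂ) (N : ℕ) (k : ZMod n → ℤ), IsPolygon P v → Cls v N k →
    ∃ Z : Set ℂ, volume Z = 0 ∧ ∀ q ∈ interior P, q ∉ Z → ∀ y ∈ P, y = q ∨ ∃ d, Ray P v q y d ∧ GoodArr v y d

theorem null_segment (a b : ℂ) : volume (segment ℝ a b) = 0 := by
  by_cases hab : a = b
  · rw [hab, segment_same]; exact measure_singleton _
  refine measure_mono_null ?_ (Pool.Agent.Lib.H94D.Null.volume_line (-((b - a).re * a.im) + (b - a).im * a.re)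
    (-(b - a).im) (b - a).re ?_)
  · intro z hz
    obtain ⟨s, _, _, hs⟩ := Pool.Agent.H52W.mem_segment_param hz
    show _ = _
    rw [hs]
    simp only [Complex.add_re, Complex.add_im, Complex.mul_re, Complex.mul_im, Complex.ofReal_re, Complex.ofReal_im,
      Complex.sub_re, Complex.sub_im]
    ring
  · rintro ⟨h1, h2⟩
    apply hab
    have : b - a = 0 := Complex.ext h2 (neg_eq_zero.1 h1)
    exact (sub_eq_zero.1 this).symm

theorem null_frontier {n : ℕ} {P : Set ℂ} {v : ZMod n → ℂ} (hP : IsPolygon P v) : volume (frontier P) = 0 := by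
  have : NeZero n := ⟨by have := hP.three_le; omega⟩
  rw [hP.frontier_eq]
  exact measure_iUnion_null fun i => null_segment _ _

/-- The vertex tuples with a large robust set of sources. -/
def RobustA {n : ℕ} (η : ℝ) (v : ZMod n → ℂ) : Prop :=
  ∃ (K : Set ℂ) (ε : ℝ), K.Nonempty ∧ 0 < ε ∧ ∀ (P' : Set ℂ) (v' : ZMod n → ℂ), IsPolygon P' v' →
    (∀ i, ‖v' i - v i‖ < ε) → volume (P' \ K) < ENNReal.ofReal η ∧
      ∀ q' : ℂ, (∃ q ∈ K, ‖q' - q‖ < ε) → Illuminable P' v' q'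

theorem isOpen_robustA {n : ℕ} [NeZero n] (η : ℝ) : IsOpen {v : ZMod n → ℂ | RobustA η v} := by
  rw [Metric.isOpen_iff]
  rintro v ⟨K, ε, hK, hε, h⟩
  refine ⟨ε / 2, by linarith, fun w hw => ⟨K, ε / 2, hK, by linarith, fun P' v' hP' hv' => ?_⟩⟩
  rw [mem_ball, dist_pi_lt_iff (by linarith)] at hw
  obtain ⟨h1, h2⟩ := h P' v' hP' (fun i => by
    have h1 := hv' i
    have h2 := hw i
    rw [dist_eq_norm] at h2
    calc ‖v' i - v i‖ = ‖(v' i - w i) + (w i - v i)‖ := by ring_nf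
      _ ≤ ‖v' i - w i‖ + ‖w i - v i‖ := norm_add_le _ _
      _ < ε := by linarith)
  exact ⟨h1, fun q' ⟨q, hq, hqq⟩ => h2 q' ⟨q, hq, by linarith⟩⟩

/-- the set `O η` -/
def OD (n : ℕ) (η : ℝ) : Set (ZMod n → ℂ) := {v | SimpleV v} ∩ {v | RobustA η v}

theorem isOpen_OD {n : ℕ} [NeZero n] (η : ℝ) : IsOpen (OD n η) := isOpen_simple.inter (isOpen_robustA η)

theorem dense_OD {n : ℕ} [NeZero n] (hcl : ClassLitA n) {η : ℝ} (hη : 0 < η) :
    {v : ZMod n → ℂ | SimpleV v} ⊆ closure (OD n η) := by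
  intro v hv
  have hv' : SimpleV v := hv
  rw [Metric.mem_closure_iff]
  intro ε hε
  obtain ⟨ε₁, hε₁, h1⟩ := Metric.isOpen_iff.1 isOpen_simple v hv
  obtain ⟨w, N, k, _, hw, hwv⟩ := dense_cls hv'.three_le v (fun i => (hv'.ne_succ i).symm)
    (lt_min hε hε₁) 0
  have hdist : dist w v < min ε ε₁ := by
    rw [dist_pi_lt_iff (lt_min hε hε₁)]
    intro i
    rw [dist_eq_norm]
    exact hwv i
  have hws : SimpleV w := h1 (hdist.trans_le (min_le_right _ _))
  refine ⟨w, ⟨hws, ?_⟩, by rw [dist_comm]; exact hdist.trans_le (min_le_left _ _)⟩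
  obtain ⟨P, hP, _⟩ := Pool.Agent.H52W.exists_polygon hws
  obtain ⟨Z, hZ, hall⟩ := hcl P w N k hP hw
  obtain ⟨K, hK, hKne, hKP, hKN, ε₁, hε₁, h2⟩ := Pool.Agent.Lib.H82R.area_set hP
    (N := Z ∪ frontier P) (measure_union_null hZ (null_frontier hP)) η hη
  have hKI : ∀ q ∈ K, q ∈ interior P ∧ q ∉ Z := by
    intro q hq
    have h3 := hKN q hq
    rw [mem_union, not_or] at h3
    refine ⟨?_, h3.1⟩
    by_contra h4
    exact h3.2 ⟨subset_closure (hKP hq), h4⟩
  obtain ⟨ε₂, hε₂, h3⟩ := Pool.Agent.Lib.H82R.unif hK (fun q hqK =>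
    robust_metric P w hP (Pool.Agent.H52W.facts hP) q (hKI q hqK).1 (hall q (hKI q hqK).1 (hKI q hqK).2))
  refine ⟨K, min ε₁ ε₂, hKne, lt_min hε₁ hε₂, fun P' v' hP' hv' => ⟨?_, ?_⟩⟩
  · exact h2 P' v' hP' fun i => (hv' i).trans_le (min_le_left _ _)
  · rintro q' ⟨q, hq, hqq⟩
    exact h3 P' v' hP' (fun i => (hv' i).trans_le (min_le_right _ _)) q' ⟨q, hq, hqq.trans_le (min_le_right _ _)⟩

theorem spec_OD {n : ℕ} {η : ℝ} {v : ZMod n → ℂ} (hv : v ∈ OD n η) {P : Set ℂ} (hP : IsPolygon P v) :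
    ∃ U : Set ℂ, IsOpen U ∧ U.Nonempty ∧ U ⊆ interior P ∧ volume (P \ U) < ENNReal.ofReal η ∧
      ∀ q ∈ U, Illuminable P v q := by
  obtain ⟨-, K, ε, hK, hε, h⟩ := hv
  obtain ⟨h1, h2⟩ := h P v hP (fun i => by simpa using hε)
  have hKU : K ⊆ ⋃ q ∈ K, ball q ε := fun q hq => mem_iUnion₂.2 ⟨q, hq, mem_ball_self hε⟩
  have hU : ∀ q' ∈ ⋃ q ∈ K, ball q ε, ∃ q ∈ K, ‖q' - q‖ < ε := by
    intro q' hq'
    obtain ⟨q, hq, hqq⟩ := mem_iUnion₂.1 hq'
    exact ⟨q, hq, by rwa [mem_ball, dist_eq_norm] at hqq⟩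
  refine ⟨⋃ q ∈ K, ball q ε, isOpen_biUnion fun _ _ => isOpen_ball, hK.mono hKU, ?_, ?_, fun q' hq' => h2 q' (hU q' hq')⟩
  · intro q' hq'
    exact Pool.Agent.Lib.H52W.interior_of_near hP h2 (hU q' hq')
  · exact (measure_mono (sdiff_subset_sdiff_right hKU)).trans_lt h1

/-- Final assembly, area form. -/
theorem open_denseA {n : ℕ} [NeZero n] (hcl : ClassLitA n) (η : ℝ) (hη : 0 < η) :
    ∃ O : Set (ZMod n → ℂ), IsOpen O ∧ O ⊆ {v | ∃ P, IsPolygon P v} ∧ {v | ∃ P, IsPolygon P v} ⊆ closure O ∧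
      ∀ v ∈ O, ∀ P : Set ℂ, IsPolygon P v → ∃ U : Set ℂ, IsOpen U ∧ U.Nonempty ∧ U ⊆ interior P ∧
        volume (P \ U) < ENNReal.ofReal η ∧ ∀ q ∈ U, Illuminable P v q := by
  refine ⟨OD n η, isOpen_OD η, ?_, ?_, fun v hv P hP => spec_OD hv hP⟩
  · rintro v ⟨hv, -⟩
    exact (Pool.Agent.H52W.exists_polygon hv).exists
  · rintro v ⟨P, hP⟩
    exact dense_OD hcl hη (Pool.Agent.H52W.simpleV_of_polygon hP)

/-- Generic form: the polygons of a dense G-delta set of n-gons are illuminable from all points of an open set of full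
area. -/
theorem generic_open {n : ℕ} [NeZero n] (hcl : ClassLitA n) :
    ∃ G : Set (ZMod n → ℂ), IsGδ G ∧ G ⊆ {v | ∃ P, IsPolygon P v} ∧ {v | ∃ P, IsPolygon P v} ⊆ closure G ∧
      ∀ v ∈ G, ∀ P : Set ℂ, IsPolygon P v → ∃ U : Set ℂ, IsOpen U ∧ U ⊆ interior P ∧ volume (P \ U) = 0 ∧
        ∀ q ∈ U, Illuminable P v q := by
  have hpos : ∀ k : ℕ, (0 : ℝ) < 1 / (k + 1) := fun k => by positivity
  refine ⟨⋂ k : ℕ, OD n (1 / (k + 1)), IsGδ.iInter_of_isOpen fun k => isOpen_OD _, ?_, ?_, ?_⟩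
  · intro v hv
    exact (Pool.Agent.H52W.exists_polygon ((mem_iInter.1 hv 0).1)).exists
  · rintro v ⟨P, hP⟩
    have hs := Pool.Agent.H52W.simpleV_of_polygon hP
    -- Baire in the whole space
    set C : Set (ZMod n → ℂ) := (closure {v | SimpleV v})ᶜ with hC
    have h1 : Dense (⋂ k : ℕ, (OD n (1 / ((k : ℝ) + 1)) ∪ C)) := by
      apply dense_iInter_of_isOpen_nat
      · intro k
        exact (isOpen_OD _).union isClosed_closure.isOpen_compl
      · intro k w
        by_cases hw : w ∈ closure {v : ZMod n → ℂ | SimpleV v}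
        · have h2 : closure {v : ZMod n → ℂ | SimpleV v} ⊆ closure (OD n (1 / ((k : ℝ) + 1))) :=
            closure_minimal (dense_OD hcl (hpos k)) isClosed_closure
          exact closure_mono subset_union_left (h2 hw)
        · exact subset_closure (Or.inr hw)
    have h2 := h1.open_subset_closure_inter (isOpen_simple (n := n))
    refine closure_mono ?_ (h2 hs)
    rintro w ⟨hw, hw'⟩
    rw [mem_iInter] at hw' ⊢
    intro k
    rcases hw' k with h | h
    · exact h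
    · exact absurd (subset_closure hw) h
  · intro v hv P hP
    rw [mem_iInter] at hv
    choose U hU1 _ hU3 hU4 hU5 using fun k => spec_OD (hv k) hP
    refine ⟨⋃ k, U k, isOpen_iUnion hU1, iUnion_subset hU3, ?_, ?_⟩
    · have hle : ∀ k : ℕ, volume (P \ ⋃ k, U k) ≤ ENNReal.ofReal (1 / (k + 1)) := fun k =>
        (measure_mono (sdiff_subset_sdiff_right (subset_iUnion U k))).trans (hU4 k).le
      have hlim : Tendsto (fun k : ℕ => ENNReal.ofReal (1 / ((k : ℝ) + 1))) atTop (𝓝 0) := by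
        have := ENNReal.tendsto_ofReal (tendsto_one_div_add_atTop_nhds_zero_nat (𝕜 := ℝ))
        rwa [ENNReal.ofReal_zero] at this
      exact le_antisymm (ge_of_tendsto' hlim hle) bot_le
    · intro q hq
      obtain ⟨k, hk⟩ := mem_iUnion.1 hq
      exact hU5 k q hk

end Pool.Agent.Lib.H32W
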