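import Pool.Agent.Lib.H25D.PairForm

/-!
# MP_273810_co: one open set of pairs whose fibres have full area for a dense G-delta set of n-gons (library H32W, helper32)
-/

open Set MeasureTheory Filter Topology

namespace Pool.Agent.Lib.H32W

open Pool.Agent.Lib.H42I (Ray IsPolygon Illuminable)
open Pool.Agent.Lib.H25D (ClassLitAE)

theorem pairs_generic {n : ℕ} [NeZero n] (hcl : ClassLitAE n) :
    ∃ O : Set ((ZMod n → ℂ) × ℂ), IsOpen O ∧
      (∀ v q, (v, q) ∈ O → (∃! P : Set ℂ, IsPolygon P v) ∧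
        ∀ P : Set ℂ, IsPolygon P v → q ∈ interior P ∧ Illuminable P v q) ∧
      ∃ G : Set (ZMod n → ℂ), IsGδ G ∧ G ⊆ {v | ∃ P, IsPolygon P v} ∧ {v | ∃ P, IsPolygon P v} ⊆ closure G ∧
        ∀ v ∈ G, ∀ P : Set ℂ, IsPolygon P v → volume (P \ {q | (v, q) ∈ O}) = 0 := by
  obtain ⟨O, hO, h1, h2⟩ := Pool.Agent.Lib.H25D.open_dense_pairs hcl
  have hpos : ∀ k : ℕ, (0 : ℝ) < 1 / (k + 1) := fun k => by positivity
  choose V hVo hVT hVd hV using fun k : ℕ => h2 (1 / (k + 1)) (hpos k)
  have hTo : IsOpen {v : ZMod n → ℂ | ∃ P, IsPolygon P v} := by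
    have : {v : ZMod n → ℂ | ∃ P, IsPolygon P v} = {v | Pool.Agent.H52W.SimpleV v} := by
      ext v
      constructor
      · rintro ⟨P, hP⟩
        exact Pool.Agent.H52W.simpleV_of_polygon hP
      · intro hv
        exact (Pool.Agent.H52W.exists_polygon hv).exists
    rw [this]
    exact isOpen_simple
  refine ⟨O, hO, fun v q hvq => ?_, ⋂ k : ℕ, V k, IsGδ.iInter_of_isOpen hVo, ?_, ?_, ?_⟩
  · obtain ⟨P, hP, hq, hill⟩ := h1 v q hvq
    obtain ⟨Q, hQ, hQ'⟩ := Pool.Agent.H52W.exists_polygon (Pool.Agent.H52W.simpleV_of_polygon hP)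
    refine ⟨⟨Q, hQ, hQ'⟩, fun R hR => ?_⟩
    have e : R = P := (hQ' R hR).trans (hQ' P hP).symm
    subst e
    exact ⟨hq, hill⟩
  · intro v hv
    exact hVT 0 (mem_iInter.1 hv 0)
  · intro v hv
    -- Baire in the whole space
    set C : Set (ZMod n → ℂ) := (closure {v | ∃ P, IsPolygon P v})ᶜ with hC
    have h3 : Dense (⋂ k : ℕ, (V k ∪ C)) := by
      apply dense_iInter_of_isOpen_nat
      · intro k
        exact (hVo k).union isClosed_closure.isOpen_compl
      · intro k w
        by_cases hw : w ∈ closure {v : ZMod n → ℂ | ∃ P, IsPolygon P v}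
        · exact closure_mono subset_union_left (closure_minimal (hVd k) isClosed_closure hw)
        · exact subset_closure (Or.inr hw)
    refine closure_mono ?_ (h3.open_subset_closure_inter hTo hv)
    rintro w ⟨hw, hw'⟩
    rw [mem_iInter] at hw' ⊢
    intro k
    rcases hw' k with h | h
    · exact h
    · exact absurd (subset_closure hw) h
  · intro v hv P hP
    rw [mem_iInter] at hv
    have hle : ∀ k : ℕ, volume (P \ {q | (v, q) ∈ O}) ≤ ENNReal.ofReal (1 / (k + 1)) := fun k =>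
      (hV k v (hv k) P hP).2.le
    have hlim : Tendsto (fun k : ℕ => ENNReal.ofReal (1 / ((k : ℝ) + 1))) atTop (𝓝 0) := by
      have := ENNReal.tendsto_ofReal (tendsto_one_div_add_atTop_nhds_zero_nat (𝕜 := ℝ))
      rwa [ENNReal.ofReal_zero] at this
    exact le_antisymm (ge_of_tendsto' hlim hle) bot_le

end Pool.Agent.Lib.H32W
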